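import Pool.Agent.Helper381.Sing

/-! Comparison of explicit singular chains (any coefficient ring) with Mathlib's singular
homology. -/

set_option autoImplicit false

namespace Pool.Agent.TH592.Nag

open Pool.Agent.Helper381

noncomputable section

/-- quotient of a submodule by another one -/
abbrev HQ {R : Type} [CommRing R] {C : Type} [AddCommGroup C] [Module R C]
    (Z B : Submodule R C) : Type := Z ⧸ B.submoduleOf Z

section Defs

variable (R : Type) [CommRing R] (X : Type) [TopologicalSpace X]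

/-- boundary of explicit singular chains -/
def bd (n : ℕ) : (Sing X (n + 1) →₀ R) →ₗ[R] (Sing X n →₀ R) :=
  Finsupp.linearCombination R fun σ =>
    ∑ i : Fin (n + 2), ((-1 : ℤ) ^ (i : ℕ)) • Finsupp.single (sface n i σ) (1 : R)

/-- cycles -/
def cyc : ∀ n : ℕ, Submodule R (Sing X n →₀ R)
  | 0 => ⊤
  | (n + 1) => LinearMap.ker (bd R X n)

/-- boundaries -/
def bou (n : ℕ) : Submodule R (Sing X n →₀ R) := LinearMap.range (bd R X n)

/-- homology of explicit chains -/
abbrev Hm (n : ℕ) : Type := HQ (cyc R X n) (bou R X n)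

end Defs

open CategoryTheory AlgebraicTopology Simplicial Opposite Limits

variable (R : Type) [CommRing R] (X : Type) [TopologicalSpace X]

/-- coefficients -/
abbrev RR : ModuleCat.{0} R := ModuleCat.of R R

/-- the singular set of a space -/
abbrev SS : SSet.{0} := TopCat.toSSet.obj (TopCat.of X)

/-- the singular chain complex -/
abbrev KK : ChainComplex (ModuleCat.{0} R) ℕ := (SS X).chainComplex (RR R)

/-- simplices of the singular set -/
def eqv (n : ℕ) : Sing X n ≃ (SS X) _⦋n⦌ :=
  ((TopCat.of X).toSSetObjEquiv (op ⦋n⦌)).symm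

variable {X}

/-- basis elements of the chain complex -/
def bas {n : ℕ} (σ : Sing X n) : (KK R X).X n :=
  ((SS X).ιChainComplex (R := RR R) (eqv X n σ)).hom (1 : R)

variable (X)

/-- from explicit chains to Mathlib chains -/
def toC (n : ℕ) : (Sing X n →₀ R) →ₗ[R] (KK R X).X n :=
  Finsupp.linearCombination R (bas R)

/-- from Mathlib chains to explicit chains -/
def ofC (n : ℕ) : (KK R X).X n ⟶ ModuleCat.of R (Sing X n →₀ R) :=
  Sigma.desc (fun x => ModuleCat.ofHom (Finsupp.lsingle ((eqv X n).symm x)))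

variable {R X}

theorem ofC_toC {n : ℕ} (c : Sing X n →₀ R) :
    (ofC R X n).hom (toC R X n c) = c := by
  have h : (ofC R X n).hom ∘ₗ (toC R X n) = LinearMap.id := by
    refine Finsupp.lhom_ext' fun σ => LinearMap.ext_ring ?_
    simp only [LinearMap.comp_apply, Finsupp.lsingle_apply, LinearMap.id_apply]
    rw [toC, Finsupp.linearCombination_single, one_smul, bas, ← ModuleCat.comp_apply]
    have h2 : (SS X).ιChainComplex (R := RR R) (eqv X n σ) ≫ ofC R X n =
        ModuleCat.ofHom (Finsupp.lsingle ((eqv X n).symm (eqv X n σ))) := by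
      exact Sigma.ι_desc _ _
    rw [h2, Equiv.symm_apply_apply]
    rfl
  exact LinearMap.congr_fun h c

theorem toC_injective {n : ℕ} : Function.Injective (toC R X n) :=
  Function.LeftInverse.injective ofC_toC

theorem toC_ofC {n : ℕ} (y : (KK R X).X n) :
    toC R X n ((ofC R X n).hom y) = y := by
  have h : ofC R X n ≫ ModuleCat.ofHom (toC R X n) = 𝟙 _ := by
    refine SSet.chainComplex_hom_ext ?_
    intro x
    have h2 : (SS X).ιChainComplex (R := RR R) x ≫ ofC R X n =
        ModuleCat.ofHom (Finsupp.lsingle ((eqv X n).symm x)) := Sigma.ι_desc _ _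
    rw [← Category.assoc, h2, Category.comp_id]
    apply ModuleCat.hom_ext
    refine LinearMap.ext_ring ?_
    show toC R X n (Finsupp.lsingle ((eqv X n).symm x) (1 : R)) = _
    rw [Finsupp.lsingle_apply, toC, Finsupp.linearCombination_single, one_smul, bas,
      Equiv.apply_symm_apply]
  exact ConcreteCategory.congr_hom h y

/-- chains are the same -/
def chEquiv (n : ℕ) : (Sing X n →₀ R) ≃ₗ[R] (KK R X).X n :=
  LinearEquiv.ofBijective (toC R X n) ⟨toC_injective, fun y => ⟨_, toC_ofC y⟩⟩

theorem chEquiv_apply {n : ℕ} (c : Sing X n →₀ R) : chEquiv n c = toC R X n c := rfl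

/-- the equivalence is compatible with faces -/
theorem eqv_face {n : ℕ} (i : Fin (n + 2)) (σ : Sing X (n + 1)) :
    (SS X).δ i (eqv X (n + 1) σ) = eqv X n (sface n i σ) := by
  exact TopCat.toSSetObjEquiv_symm_naturality (X := TopCat.of X) (SimplexCategory.δ i) σ

theorem d_toC {n : ℕ} (c : Sing X (n + 1) →₀ R) :
    ((KK R X).d (n + 1) n).hom (toC R X (n + 1) c) = toC R X n (bd R X n c) := by
  have h : ((KK R X).d (n + 1) n).hom ∘ₗ toC R X (n + 1) = toC R X n ∘ₗ bd R X n := by
    refine Finsupp.lhom_ext' fun σ => LinearMap.ext_ring ?_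
    simp only [LinearMap.comp_apply, Finsupp.lsingle_apply]
    rw [toC, Finsupp.linearCombination_single, one_smul, bas, bd,
      Finsupp.linearCombination_single, one_smul, map_sum, ← ModuleCat.comp_apply,
      SSet.ιChainComplex_d]
    have hs : ∀ i : Fin (n + 2), toC R X n (((-1 : ℤ) ^ (i : ℕ)) •
        Finsupp.single (sface n i σ) (1 : R)) =
        ((-1 : ℤ) ^ (i : ℕ)) •
          ((SS X).ιChainComplex (R := RR R) ((SS X).δ i (eqv X (n + 1) σ))).hom (1 : R) := by
      intro i
      rw [map_zsmul, eqv_face, toC, Finsupp.linearCombination_single, one_smul]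
      rfl
    rw [Finset.sum_congr rfl fun i _ => hs i]
    change (ModuleCat.Hom.hom (∑ i : Fin (n + 2), ((-1 : ℤ) ^ (i : ℕ)) •
        (SS X).ιChainComplex (R := RR R)
        ((SS X).δ i (eqv X (n + 1) σ)) : RR R ⟶ (KK R X).X n)) (1 : R) = _
    rw [ModuleCat.hom_sum, LinearMap.sum_apply]
    refine Finset.sum_congr rfl fun i _ => ?_
    rw [ModuleCat.hom_zsmul, LinearMap.smul_apply]
  exact LinearMap.congr_fun h c

theorem cyc_iff {n : ℕ} (c : Sing X n →₀ R) : c ∈ cyc R X n ↔
    ((KK R X).d n ((ComplexShape.down ℕ).next n)).hom (toC R X n c) = 0 := by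
  cases n with
  | zero =>
    rw [HomologicalComplex.shape _ _ _ (by simp)]
    exact ⟨fun _ => rfl, fun _ => trivial⟩
  | succ m =>
    have h3 : (ComplexShape.down ℕ).next (m + 1) = m := by simp
    rw [h3, d_toC]
    constructor
    · intro h
      have h4 : bd R X m c = 0 := h
      rw [h4, map_zero]
    · intro h
      have h5 : bd R X m c = 0 := toC_injective (by rw [h, map_zero])
      exact h5

theorem bou_iff {n : ℕ} (c : Sing X n →₀ R) : c ∈ bou R X n ↔
    ∃ y, ((KK R X).d ((ComplexShape.down ℕ).prev n) n).hom y = toC R X n c := by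
  have h3 : (ComplexShape.down ℕ).prev n = n + 1 := by simp
  rw [h3]
  constructor
  · rintro ⟨b, rfl⟩
    exact ⟨toC R X (n + 1) b, d_toC b⟩
  · rintro ⟨y, hy⟩
    refine ⟨(ofC R X (n + 1)).hom y, ?_⟩
    apply toC_injective
    rw [← d_toC, toC_ofC, hy]

/-- homology of a short complex from an explicit description -/
theorem homology_equiv (S : ShortComplex (ModuleCat.{0} R)) {C : Type} [AddCommGroup C]
    [Module R C] (e : C ≃ₗ[R] S.X₂) (Z B : Submodule R C)
    (hZ : ∀ c, c ∈ Z ↔ S.g.hom (e c) = 0) (hB : ∀ c, c ∈ B ↔ ∃ y, S.f.hom y = e c) :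
    Nonempty ((S.homology : Type) ≃ₗ[R] HQ Z B) := by
  have e1 : (S.homology : Type) ≃ₗ[R] (LinearMap.ker S.g.hom ⧸ LinearMap.range S.moduleCatToCycles) :=
    S.moduleCatHomologyIso.toLinearEquiv
  have hZ' : Z.map (e : C →ₗ[R] S.X₂) = LinearMap.ker S.g.hom := by
    ext y
    constructor
    · rintro ⟨c, hc, rfl⟩
      exact (hZ c).mp hc
    · intro hy
      refine ⟨e.symm y, (hZ _).mpr ?_, e.apply_symm_apply y⟩
      rw [e.apply_symm_apply]
      exact hy
  let e2 : Z ≃ₗ[R] LinearMap.ker S.g.hom := (e.submoduleMap Z).trans (LinearEquiv.ofEq _ _ hZ')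
  have he2 : ∀ z : Z, (e2 z).1 = e z.1 := fun z => rfl
  have h3 : (B.submoduleOf Z).map (e2 : Z →ₗ[R] LinearMap.ker S.g.hom) =
      LinearMap.range S.moduleCatToCycles := by
    ext y
    constructor
    · rintro ⟨c, hc, rfl⟩
      obtain ⟨x, hx⟩ := (hB c.1).mp hc
      exact ⟨x, Subtype.ext hx⟩
    · rintro ⟨x, rfl⟩
      refine ⟨e2.symm (S.moduleCatToCycles x), ?_, e2.apply_symm_apply _⟩
      change (e2.symm (S.moduleCatToCycles x)).1 ∈ B
      rw [hB]
      refine ⟨x, ?_⟩
      have h4 := he2 (e2.symm (S.moduleCatToCycles x))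
      rw [e2.apply_symm_apply] at h4
      exact h4
  exact ⟨e1.trans (Submodule.Quotient.equiv _ _ e2 h3).symm⟩

theorem bridge (R : Type) [CommRing R] (X : Type) [TopologicalSpace X] (n : ℕ) :
    Nonempty (((((singularHomologyFunctor (ModuleCat.{0} R) n).obj
      (ModuleCat.of R R)).obj (TopCat.of X) : ModuleCat.{0} R) : Type) ≃ₗ[R] Hm R X n) :=
  homology_equiv ((KK R X).sc n) (chEquiv n) (cyc R X n) (bou R X n)
    (fun c => cyc_iff c) (fun c => bou_iff c)

end

end Pool.Agent.TH592.Nag
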