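import Pool.Agent.TH592.Nag.Tors

/-! Elements of order two, and the conditional inequality, for Mathlib's singular homology. -/

set_option autoImplicit false

namespace Pool.Agent.TH592.Nag

open Pool.Agent.Helper381 Module

noncomputable section

theorem order_two (X : Type) [TopologicalSpace X] (n : ℕ) (h : ¬ NoTwo X n) :
    ∃ g : ((((AlgebraicTopology.singularHomologyFunctor (ModuleCat.{0} ℤ) n).obj
      (ModuleCat.of ℤ ℤ)).obj (TopCat.of X) : ModuleCat.{0} ℤ) : Type), addOrderOf g = 2 := by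
  obtain ⟨e⟩ := bridge ℤ X n
  rw [NoTwo] at h
  push Not at h
  obtain ⟨z, hz, h2, hb⟩ := h
  have : Fact (Nat.Prime 2) := ⟨Nat.prime_two⟩
  refine ⟨e.symm (Submodule.Quotient.mk ⟨z, hz⟩), ?_⟩
  apply addOrderOf_eq_prime
  · rw [two_nsmul, ← map_add, ← Submodule.Quotient.mk_add]
    have h3 : (Submodule.Quotient.mk ((⟨z, hz⟩ : cyc ℤ X n) + ⟨z, hz⟩) : Hm ℤ X n) = 0 := by
      apply (Submodule.Quotient.mk_eq_zero _).mpr
      change z + z ∈ bou ℤ X n
      rwa [← two_smul ℤ z]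
    rw [h3, map_zero]
  · intro h3
    apply hb
    have h4 := (LinearEquiv.map_eq_zero_iff e.symm).mp h3
    have h5 : (⟨z, hz⟩ : cyc ℤ X n) ∈ (bou ℤ X n).submoduleOf (cyc ℤ X n) :=
      (Submodule.Quotient.mk_eq_zero _).mp h4
    exact h5

theorem finrank_real (X : Type) [TopologicalSpace X] (n : ℕ) :
    Module.finrank ℝ ((((AlgebraicTopology.singularHomologyFunctor (ModuleCat.{0} ℝ) n).obj
            (ModuleCat.of ℝ ℝ)).obj (TopCat.of X) : ModuleCat.{0} ℝ) : Type) =
      Module.finrank ℝ (Hm ℝ X n) := by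
  obtain ⟨e⟩ := bridge ℝ X n
  exact e.finrank_eq

end

end Pool.Agent.TH592.Nag
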