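import Pool.Agent.Helper775.Tight.Compare
import Pool.Agent.Helper775.Tight.Dim
import Pool.Agent.Helper381.Main

/-! Vanishing of mod 2 singular cohomology above the dimension for compact manifolds. -/

set_option autoImplicit false

namespace Pool.Agent.TH592.Nag

open Pool.Agent.Helper381 Module Set Topology

noncomputable section

section Small

variable {k : Type} [CommRing k] {X : Type} [TopologicalSpace X] (𝒞 : Set (Set X))

open Finsupp in
theorem small_cob (hopen : ∀ C ∈ 𝒞, IsOpen C) (hcov : ∀ x : X, ∃ C ∈ 𝒞, x ∈ C) (n : ℕ)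
    (f : Sing X (n + 1) → k) (hf : altd k (sface (X := X)) (n + 1) f = 0) (h : Sing X n → k)
    (hs : ∀ σ ∈ smallSet 𝒞 (n + 1), f σ = altd k (sface (X := X)) n h σ) :
    ∃ g, altd k (sface (X := X)) n g = f := by
  classical
  set f' : Sing X (n + 1) → k := f - altd k (sface (X := X)) n h with hf'
  have hf'0 : altd k (sface (X := X)) (n + 1) f' = 0 := by
    rw [hf', map_sub, hf, altd_altd (sface (X := X)) (fun n i j σ h => sface_sface n i j σ h),
      sub_zero]
  have hs' : ∀ σ ∈ smallSet 𝒞 (n + 1), f' σ = (0 : Sing X (n + 1) → k) σ := by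
    intro σ hσ
    rw [hf', Pi.sub_apply, hs σ hσ, sub_self]
    rfl
  refine ⟨(fun σ => evc f' (DD 𝒞 n (single σ 1))) + h, ?_⟩
  rw [map_add]
  have key : altd k (sface (X := X)) n (fun σ => evc f' (DD 𝒞 n (single σ 1))) = f' := by
    funext σ
    rw [altd_eq_ev]
    have h1 : Finsupp.linearCombination ℤ (fun σ => evc f' (DD 𝒞 n (single σ 1))) =
        (evc f').comp (DD 𝒞 n) := by
      apply Finsupp.lhom_ext'
      intro σ
      apply LinearMap.ext_ring
      simp only [LinearMap.comp_apply, lsingle_apply, linearCombination_single, one_smul]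
    rw [h1, LinearMap.comp_apply]
    have h2 : f' σ = evc f' (rho 𝒞 (n + 1) (single σ 1)) +
        evc f' (sbd X (n + 1) (DD 𝒞 (n + 1) (single σ 1))) +
        evc f' (DD 𝒞 n (sbd X n (single σ 1))) := by
      rw [rho_succ, map_sub, map_sub, evc_single]
      ring
    have h3 : evc f' (sbd X (n + 1) (DD 𝒞 (n + 1) (single σ 1))) = 0 := by
      rw [← ev_altd, hf'0]
      simp
    have h4 : evc f' (rho 𝒞 (n + 1) (single σ 1)) = 0 := by
      have := evc_congr (smallSet 𝒞 (n + 1)) f' 0 hs' _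
        (rho_small 𝒞 hopen hcov (n + 1) (single σ 1))
      rw [this]
      simp [evc]
    rw [h2, h3, h4, zero_add, zero_add]
  rw [key, hf', sub_add_cancel]

end Small

section Vanish

open Pool.Agent.Helper775.Tight (SCh sdf SDD Sg AS theta theta_surj ex_of_locally_embed)
open Pool.Agent.Helper775.Tight.SoftCx

variable {P : Type} [MetricSpace P] {m : ℕ} [ChartedSpace (EuclideanSpace ℝ (Fin m)) P]
  [CompactSpace P]

include m in
theorem loc_embed (q : P) : ∃ K ∈ 𝓝 q, IsCompact K ∧ ∃ φ : P → (Fin m → ℝ),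
    ContinuousOn φ K ∧ InjOn φ K := by
  let e := chartAt (EuclideanSpace ℝ (Fin m)) q
  have h1 : e.source ∈ 𝓝 q := e.open_source.mem_nhds (mem_chart_source _ q)
  obtain ⟨r, hr, hb⟩ := Metric.mem_nhds_iff.mp h1
  refine ⟨Metric.closedBall q (r / 2), Metric.closedBall_mem_nhds _ (by linarith),
    Metric.isClosed_closedBall.isCompact, fun x => EuclideanSpace.equiv (Fin m) ℝ (e x), ?_, ?_⟩
  · apply (EuclideanSpace.equiv (Fin m) ℝ).continuous.comp_continuousOn
    exact e.continuousOn.mono ((Metric.closedBall_subset_ball (by linarith)).trans hb)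
  · intro x hx y hy hxy
    have h2 := (EuclideanSpace.equiv (Fin m) ℝ).injective hxy
    exact e.injOn (hb (Metric.closedBall_subset_ball (by linarith) hx))
      (hb (Metric.closedBall_subset_ball (by linarith) hy)) h2

theorem zmod2_sign (i : ℕ) : (-1 : ZMod 2) ^ i = 1 := by
  have h : (-1 : ZMod 2) = 1 := rfl
  rw [h, one_pow]

include m in
theorem vanish (hm : 1 ≤ m) (n : ℕ) (hn : m ≤ n) (f : Sing P (n + 1) → ZMod 2)
    (hf : altd (ZMod 2) (sface (X := P)) (n + 1) f = 0) :
    ∃ g, altd (ZMod 2) (sface (X := P)) n g = f := by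
  classical
  let s : SCh P := Pi.single (n + 1) f
  have hs1 : s (n + 1) = f := Pi.single_eq_same _ _
  have hs : (Sg P).Coc univ (n + 2) s := by
    intro z _
    refine ⟨univ, Filter.univ_mem, fun σ _ => ?_⟩
    change ∑ i : Fin (n + 3), s (n + 1) (Pool.Agent.Helper775.Tight.sface (n + 1) i σ) = 0
    rw [hs1]
    have h1 := congrFun hf σ
    rw [altd_apply] at h1
    rw [Pi.zero_apply] at h1
    rw [← h1]
    refine Finset.sum_congr rfl fun i _ => ?_
    rw [zmod2_sign, one_mul]
    rfl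
  obtain ⟨c, hc, hc'⟩ := theta_surj (m := m) isCompact_univ hs
  obtain ⟨b, hb⟩ := ex_of_locally_embed (Ω := P) (m := m) (fun q => loc_embed q)
    (isCompact_univ) (n := n + 2) (by omega) (by omega) c hc
  obtain ⟨t, ht⟩ := hc'
  have hk : ∀ z : P, s - (Sg P).D (t + theta b) ∈ (Sg P).N z (n + 2) := by
    intro z
    have h1 := ht z (mem_univ z)
    have h2 := (Pool.Agent.Helper775.Tight.Theta (P := P)).mem z (n + 2) _ (hb z (mem_univ z))
    have h3 : theta (c - (AS P).D b) = theta c - theta ((AS P).D b) := rfl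
    have h4 : (Sg P).D (theta b) = theta ((AS P).D b) :=
      Pool.Agent.Helper775.Tight.sdf_theta b
    have h5 := add_mem h1 h2
    rw [Pool.Agent.Helper775.Tight.Theta_f, h3] at h5
    rw [map_add, h4]
    convert h5 using 1
    abel
  have hk2 : ∀ z : P, ∃ W ∈ 𝓝 z, ∀ σ : Sing P (n + 1), range σ ⊆ W →
      (s - (Sg P).D (t + theta b)) (n + 1) σ = 0 := hk
  choose W hW hWs using hk2
  have hW' : ∀ z, ∃ U, U ⊆ W z ∧ IsOpen U ∧ z ∈ U := fun z => mem_nhds_iff.mp (hW z)
  choose U hUW hUo hU using hW'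
  apply small_cob (Set.range U) (by rintro _ ⟨z, rfl⟩; exact hUo z)
    (fun x => ⟨U x, ⟨x, rfl⟩, hU x⟩) n f hf ((t + theta b) n)
  rintro σ ⟨C, ⟨z, rfl⟩, hσ⟩
  have h1 := hWs z σ (hσ.trans (hUW z))
  have h2 : s (n + 1) σ - ∑ i : Fin (n + 2),
      (t + theta b) n (Pool.Agent.Helper775.Tight.sface n i σ) = 0 := h1
  rw [hs1, sub_eq_zero] at h2
  rw [h2, altd_apply]
  refine Finset.sum_congr rfl fun i _ => ?_
  rw [zmod2_sign, one_mul]
  rfl

include m in
theorem coh_vanish (hm : 1 ≤ m) (n : ℕ) (hn : m + 1 ≤ n) :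
    finrank (ZMod 2) (SingCoh (ZMod 2) P n) = 0 := by
  obtain ⟨n, rfl⟩ : ∃ n', n = n' + 1 := ⟨n - 1, by omega⟩
  have : Subsingleton (SingCoh (ZMod 2) P (n + 1)) := by
    refine ⟨fun a b => ?_⟩
    have h0 : ∀ a : SingCoh (ZMod 2) P (n + 1), a = 0 := by
      intro a
      obtain ⟨f, rfl⟩ := Submodule.mkQ_surjective _ a
      apply (Submodule.Quotient.mk_eq_zero _).mpr
      obtain ⟨g, hg⟩ := vanish (m := m) hm n (by omega) f.1 f.2
      exact ⟨g, hg⟩
    rw [h0 a, h0 b]
  exact Module.finrank_zero_of_subsingleton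

end Vanish

end

end Pool.Agent.TH592.Nag
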