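import Pool.Agent.TH592.Nag.Chart
import Pool.Agent.TH592.Nag.Order2
import Pool.Agent.TH592.Nag.Vanish

/-! The inequality for compact connected Riemannian manifolds with symmetries and without
integral homology classes of order two. -/

set_option autoImplicit false

namespace Pool.Agent.TH592.Nag

open Pool.Agent.Helper381 Module Set Bundle Manifold Filter
open scoped ContDiff Topology

noncomputable section

section Zero

variable {X : Type} [TopologicalSpace X]

theorem hm_zero_nontrivial [Nonempty X] : Nontrivial (Hm ℝ X 0) := by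
  obtain ⟨x⟩ := ‹Nonempty X›
  let σ : Sing X 0 := ContinuousMap.const _ x
  have h1 : (Finsupp.single σ (1 : ℝ)) ∈ cyc ℝ X 0 := trivial
  refine ⟨Submodule.Quotient.mk ⟨_, h1⟩, 0, ?_⟩
  intro h
  have h2 := (Submodule.Quotient.mk_eq_zero _).mp h
  have h3 : (Finsupp.single σ (1 : ℝ)) ∈ bou ℝ X 0 := h2
  obtain ⟨b, hb⟩ := h3
  have h4 := ev_bd (k := ℝ) (X := X) 0 (fun _ => 1) b
  have h5 : altd ℝ (sface (X := X)) 0 (fun _ => 1) = 0 := by
    funext τ
    rw [altd_apply, Fin.sum_univ_two]
    simp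
  rw [hb, h5, ev_single] at h4
  have h6 := ev_smul (k := ℝ) (X := X) 1 0 0
  rw [zero_smul, zero_smul] at h6
  change 1 * 1 = ev 1 0 b at h4
  rw [h6] at h4
  simp at h4

end Zero

section Dim0

theorem subsingleton_of_zero (M : Type) [TopologicalSpace M] [PreconnectedSpace M]
    [ChartedSpace (EuclideanSpace ℝ (Fin 0)) M] : Subsingleton M := by
  have h : DiscreteTopology M := by
    rw [discreteTopology_iff_isOpen_singleton]
    intro q
    let e := chartAt (EuclideanSpace ℝ (Fin 0)) q
    have h1 : e.source = {q} := by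
      apply Set.eq_singleton_iff_unique_mem.mpr
      refine ⟨mem_chart_source _ q, fun y hy => ?_⟩
      exact e.injOn hy (mem_chart_source _ q) (Subsingleton.elim _ _)
    rw [← h1]
    exact e.open_source
  exact PreconnectedSpace.trivial_of_discrete

end Dim0

section Core

variable (d : ℕ) (M : Type) [MetricSpace M]
    [ChartedSpace (EuclideanSpace ℝ (Fin d)) M]
    [IsManifold (𝓡 d) ∞ M]
    [RiemannianBundle (fun x : M ↦ TangentSpace (𝓡 d) x)]
    [IsContMDiffRiemannianBundle (𝓡 d) ∞ (EuclideanSpace ℝ (Fin d))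
      (fun x : M ↦ TangentSpace (𝓡 d) x)]
    [IsRiemannianManifold (𝓡 d) M]
    [CompactSpace M] [PreconnectedSpace M] [Nonempty M]

theorem core (s : M → M → M)
    (hs : ∀ x : M, Isometry (s x) ∧ s x x = x ∧
      mfderiv (𝓡 d) (𝓡 d) (s x) x = -ContinuousLinearMap.id ℝ (EuclideanSpace ℝ (Fin d)))
    (A : Finset M) (hA : ∀ x ∈ A, ∀ y ∈ A, s x y = y) (hno : ∀ i, NoTwo M i) :
    A.card ≤ ∑ i ∈ Finset.range (d + 1), finrank ℝ (Hm ℝ M i) := by
  have : Fact (Nat.Prime 2) := ⟨Nat.prime_two⟩
  obtain ⟨R, G⟩ := riemannian_geo (E := EuclideanSpace ℝ (Fin d)) (M := M)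
  obtain ⟨fR, -⟩ := G.betti_finite (M := M) ℝ
  obtain ⟨f2, -⟩ := G.betti_finite (M := M) (ZMod 2)
  rcases Nat.eq_zero_or_pos d with rfl | hd
  · have h1 : Subsingleton M := subsingleton_of_zero M
    have h2 : A.card ≤ 1 := Finset.card_le_one_of_subsingleton A
    have h3 : 0 < finrank ℝ (Hm ℝ M 0) := by
      have := hm_finite ℝ M 0 (fR 0)
      have := hm_zero_nontrivial (X := M)
      exact Module.finrank_pos
    rw [zero_add, Finset.sum_range_one]
    omega
  · have hne : (-ContinuousLinearMap.id ℝ (EuclideanSpace ℝ (Fin d)) :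
        EuclideanSpace ℝ (Fin d) →L[ℝ] EuclideanSpace ℝ (Fin d)) ≠ 0 := by
      intro h
      have h1 := congrArg (fun L : EuclideanSpace ℝ (Fin d) →L[ℝ] EuclideanSpace ℝ (Fin d) =>
        L (EuclideanSpace.single ⟨0, hd⟩ (1 : ℝ))) h
      have h2 := congrArg (fun v : EuclideanSpace ℝ (Fin d) => v ⟨0, hd⟩) h1
      simp at h2
    have hder : ∀ x : M, HasMFDerivAt (𝓡 d) (𝓡 d) (s x) x
        (-ContinuousLinearMap.id ℝ (EuclideanSpace ℝ (Fin d)) :
        EuclideanSpace ℝ (Fin d) →L[ℝ] EuclideanSpace ℝ (Fin d)) := by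
      intro x
      obtain ⟨h1, h2, h3⟩ := hs x
      have h4 : MDifferentiableAt (𝓡 d) (𝓡 d) (s x) x := by
        by_contra hn
        have h5 := mfderiv_zero_of_not_mdifferentiableAt hn
        apply hne
        exact h3.symm.trans h5
      have h5 := h4.hasMFDerivAt
      rw [h3] at h5
      exact h5
    have hsym : ∀ x : M, (∀ y, s x (s x y) = y) ∧
        ∃ ε > 0, ∀ y, dist y x < ε → s x y = y → y = x := fun x =>
      symmetry_of_deriv x (s x) (hs x).1 (hs x).2.1 (hder x)
    have hanti : IsAntipodal (A : Set M) := by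
      intro x hx y hy
      refine ⟨IsometryEquiv.mk' (s x) (s x) (hsym x).1 (hs x).1, ⟨?_, ?_, ?_⟩, ?_⟩
      · exact (hsym x).1
      · exact (hs x).2.1
      · exact (hsym x).2
      · exact hA x hx y hy
    have h1 := G.card_le A hanti
    rw [totalBetti_eq (d + 1) f2 (fun n hn => coh_vanish (m := d) hd n hn), Nat.cast_le] at h1
    refine h1.trans (Finset.sum_le_sum fun n _ => ?_)
    rw [← finrank_hm (ZMod 2) M n (f2 n)]
    exact finrank_le n (hno n) (fun m _ => hno m) (hm_finite (ZMod 2) M n (f2 n))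
      (hm_finite ℝ M n (fR n))

end Core

end

end Pool.Agent.TH592.Nag
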