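import Pool.Agent.TH592.Nag.TwoVar

/-! An isometry which fixes the centre of a chart and has derivative the identity there is the
identity near the centre. -/

namespace Pool.Agent.TH592.Nag

universe u v w

open Metric Set
open Pool.Agent.Helper381

/-- the weighted triangle inequality for a positive semidefinite form -/
theorem form_sub_le {E : Type v} [AddCommGroup E] [Module ℝ E] (B : E →ₗ[ℝ] E →ₗ[ℝ] ℝ)
    (hsymm : ∀ v w, B v w = B w v) (hpos : ∀ v, 0 ≤ B v v) {t : ℝ} (ht : 0 < t) (a d : E) :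
    B (a - d) (a - d) ≤ (1 + t) * B a a + (1 + 1 / t) * B d d := by
  have h := hpos (t • a + d)
  simp only [map_add, map_smul, LinearMap.add_apply, LinearMap.smul_apply, smul_eq_mul] at h
  simp only [map_sub, LinearMap.sub_apply]
  rw [hsymm d a] at h ⊢
  have h2 : t * (-(2 * B a d)) ≤ t * (t * B a a + 1 / t * B d d) := by
    have : t * (t * B a a + 1 / t * B d d) = t * (t * B a a) + B d d := by field_simp
    rw [this]
    nlinarith
  have h3 := le_of_mul_le_mul_left h2 ht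
  linarith

variable {M : Type u} {E : Type v} [MetricSpace M] [NormedAddCommGroup E] [NormedSpace ℝ E]
  (c : Loc M E)

theorem growth (W : ℕ → ℝ) (hW : ∀ k, 0 ≤ W k)
    (h : ∀ k, (1 - 9 * (1 / 72 * (3 / 4) ^ k)) * W k ≤ 4 * W (k + 1)) (k : ℕ) :
    (1 / 2 + 1 / 2 * (3 / 4) ^ k) * W 0 ≤ 4 ^ k * W k := by
  induction k with
  | zero => norm_num
  | succ k ih =>
    have h0 := hW 0
    have h1 := h k
    set q : ℝ := (3 / 4) ^ k with hq
    have hq0 : 0 ≤ q := by positivity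
    have hq1 : q ≤ 1 := pow_le_one₀ (by norm_num) (by norm_num)
    have h4 : (0 : ℝ) < 4 ^ k := by positivity
    have h2 : (1 - 9 * (1 / 72 * q)) * ((1 / 2 + 1 / 2 * q) * W 0) ≤
        (1 - 9 * (1 / 72 * q)) * (4 ^ k * W k) :=
      mul_le_mul_of_nonneg_left ih (by linarith)
    have h3 : 4 ^ k * ((1 - 9 * (1 / 72 * q)) * W k) ≤ 4 ^ k * (4 * W (k + 1)) :=
      mul_le_mul_of_nonneg_left h1 h4.le
    have h5 : (1 / 2 + 1 / 2 * (3 / 4) ^ (k + 1)) * W 0 ≤
        (1 - 9 * (1 / 72 * q)) * ((1 / 2 + 1 / 2 * q) * W 0) := by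
      have : ((3 : ℝ) / 4) ^ (k + 1) = q * (3 / 4) := by rw [pow_succ]
      rw [this]
      have : (1 - 9 * (1 / 72 * q)) * ((1 / 2 + 1 / 2 * q) * W 0) -
          (1 / 2 + 1 / 2 * (q * (3 / 4))) * W 0 = q * (1 - q) / 16 * W 0 := by ring
      have h6 : 0 ≤ q * (1 - q) / 16 * W 0 := by
        have : 0 ≤ 1 - q := by linarith
        positivity
      linarith
    calc (1 / 2 + 1 / 2 * (3 / 4) ^ (k + 1)) * W 0 ≤ _ := h5
      _ ≤ _ := h2
      _ = 4 ^ k * ((1 - 9 * (1 / 72 * q)) * W k) := by ring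
      _ ≤ _ := h3
      _ = 4 ^ (k + 1) * W (k + 1) := by rw [pow_succ]; ring

theorem rigid
    (hmid : ∀ x y : M, ∃ m : M, dist x m = dist x y / 2 ∧ dist m y = dist x y / 2)
    {R : ℝ} (hR0 : 0 < R) (huniq : ∀ x y m m' : M, dist x y < R → dist x m = dist x y / 2 →
      dist m y = dist x y / 2 → dist x m' = dist x y / 2 → dist m' y = dist x y / 2 → m = m')
    (θ : M → M) (hθ : Isometry θ) (hfix : θ (c.ψ c.x₀) = c.ψ c.x₀)
    (hder : ∀ η > 0, ∃ δ > 0, ∀ u : E, ‖u - c.x₀‖ < δ → ‖c.φ (θ (c.ψ u)) - u‖ ≤ η * ‖u - c.x₀‖) :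
    ∃ δ > 0, ∀ y, dist (c.ψ c.x₀) y < δ → θ y = y := by
  have hL := c.one_le_L
  have hlam := c.lampos
  have hC := c.Cpos
  have hr1 := c.r₁pos
  have hτ := c.τpos
  set K : ℝ := (2 + 2 * c.L ^ 2) * (2 * c.L) with hK
  have hKpos : 0 < K := by positivity
  set K1 : ℝ := 2 * c.C / c.lam with hK1
  have hK1pos : 0 < K1 := by positivity
  have hK1lam : c.lam * K1 = 2 * c.C := by rw [hK1]; field_simp
  -- the size
  obtain ⟨δ, hδ0, hδ1, hδ2, hδ3, hδ4, hδ5⟩ : ∃ δ > 0, K * δ ≤ c.r₁ ∧ K * δ ≤ c.τ / 2 ∧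
      K * δ ≤ 1 ∧ 4 * (K1 * (K * δ)) ≤ (1 / 72) ^ 2 ∧ δ ≤ R := by
    refine ⟨min (c.r₁ / K) (min (c.τ / 2 / K) (min (1 / K) (min ((1 / 72) ^ 2 / (4 * K1 * K)) R))),
      by positivity, ?_, ?_, ?_, ?_, ?_⟩
    · calc K * _ ≤ K * (c.r₁ / K) := by gcongr; exact min_le_left _ _
        _ = c.r₁ := by field_simp
    · calc K * _ ≤ K * (c.τ / 2 / K) := by
            gcongr; exact (min_le_right _ _).trans (min_le_left _ _)
        _ = c.τ / 2 := by field_simp
    · calc K * _ ≤ K * (1 / K) := by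
            gcongr; exact (min_le_right _ _).trans ((min_le_right _ _).trans (min_le_left _ _))
        _ = 1 := by field_simp
    · calc 4 * (K1 * (K * _)) ≤ 4 * (K1 * (K * ((1 / 72) ^ 2 / (4 * K1 * K)))) := by
            gcongr
            exact (min_le_right _ _).trans ((min_le_right _ _).trans
              ((min_le_right _ _).trans (min_le_left _ _)))
        _ = (1 / 72) ^ 2 := by field_simp
    · exact (min_le_right _ _).trans ((min_le_right _ _).trans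
              ((min_le_right _ _).trans (min_le_right _ _)))
  refine ⟨δ, hδ0, fun y hy => ?_⟩
  set x := c.ψ c.x₀ with hx
  set T := dist x y with hT
  rcases (dist_nonneg (x := x) (y := y)).eq_or_lt with h0 | hTpos
  · have : x = y := dist_eq_zero.mp h0.symm
    rw [← this]; exact hfix
  rw [← hT] at hTpos
  have hTK : T / 1 ≤ δ := by rw [div_one]; exact hy.le
  -- the sequence of midpoints
  choose mp hmp1 hmp2 using fun z : M => hmid x z
  let Y : ℕ → M := fun k => mp^[k] y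
  have hY0 : Y 0 = y := rfl
  have hYs : ∀ k, Y (k + 1) = mp (Y k) := fun k => Function.iterate_succ_apply' mp k y
  have hYd : ∀ k, dist x (Y k) = T / 2 ^ k := by
    intro k
    induction k with
    | zero => rw [hY0, pow_zero, div_one]
    | succ k ih => rw [hYs, hmp1, ih, pow_succ]; field_simp
  have hθd : ∀ z, dist x (θ z) = dist x z := by
    intro z
    conv_lhs => rw [← hfix]
    exact hθ.dist_eq _ _
  have hpow : ∀ k : ℕ, T / 2 ^ k ≤ T := fun k =>
    div_le_self hTpos.le (one_le_pow₀ (by norm_num))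
  have hKT : K * T ≤ c.τ / 2 := (mul_le_mul_of_nonneg_left hy.le hKpos.le).trans hδ2
  have hK1le : 1 ≤ K := by rw [hK]; nlinarith
  have hx₀ : c.x₀ ∈ ball c.x₀ c.r₁ := mem_ball_self hr1
  have hchart : ∀ z, dist x z ≤ T → c.φ z ∈ ball c.x₀ c.r ∧ c.ψ (c.φ z) = z ∧
      ‖c.φ z - c.x₀‖ ≤ c.L * dist x z := by
    intro z hz
    obtain ⟨w, h1, h2, h3⟩ := c.in_chart hx₀ (y := z) (by
      have : T ≤ K * T := by nlinarith
      linarith)
    have : c.φ z = w := by rw [← h2, c.φψ w h1]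
    rw [this]
    exact ⟨h1, h2, h3⟩
  have hu := fun k => hchart (Y k) (by rw [hYd]; exact hpow k)
  have hu' := fun k => hchart (θ (Y k)) (by rw [hθd, hYd]; exact hpow k)
  let W : ℕ → ℝ := fun k => c.G c.x₀ (c.φ (θ (Y k)) - c.φ (Y k)) (c.φ (θ (Y k)) - c.φ (Y k))
  have hW : ∀ k, 0 ≤ W k := fun k => G_nonneg c _
  have hstep : ∀ k, (1 - 9 * (1 / 72 * (3 / 4) ^ k)) * W k ≤ 4 * W (k + 1) := by
    intro k
    have hTk : 0 < T / 2 ^ k := by positivity
    set ρ : ℝ := K * (T / 2 ^ k) with hρ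
    have hρ0 : 0 < ρ := by positivity
    have hρδ : ρ ≤ K * δ := by
      rw [hρ]
      exact mul_le_mul_of_nonneg_left ((hpow k).trans hy.le) hKpos.le
    have hρdiv : ρ / (2 + 2 * c.L ^ 2) = 2 * (c.L * (T / 2 ^ k)) := by
      rw [hρ, hK]; field_simp
    have hLT : 0 < c.L * (T / 2 ^ k) := by positivity
    have m0 : c.x₀ ∈ ball c.x₀ (ρ / (2 + 2 * c.L ^ 2)) := mem_ball_self (by rw [hρdiv]; linarith)
    have m1 : c.φ (Y k) ∈ ball c.x₀ (ρ / (2 + 2 * c.L ^ 2)) := by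
      rw [mem_ball, dist_eq_norm, hρdiv]
      have := (hu k).2.2
      rw [hYd] at this
      linarith
    have m2 : c.φ (θ (Y k)) ∈ ball c.x₀ (ρ / (2 + 2 * c.L ^ 2)) := by
      rw [mem_ball, dist_eq_norm, hρdiv]
      have := (hu' k).2.2
      rw [hθd, hYd] at this
      linarith
    have hsmall : c.C * ρ ^ 2 + c.C * ρ / 2 + c.C * ρ / 4 ≤ c.lam * (K1 * ρ) := by
      have e0 : c.lam * (K1 * ρ) = 2 * c.C * ρ := by rw [← hK1lam]; ring
      rw [e0]
      have e1 : ρ ^ 2 ≤ ρ := by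
        have : ρ ≤ 1 := hρδ.trans hδ3
        nlinarith
      have e2 : c.C * ρ ^ 2 ≤ c.C * ρ := mul_le_mul_of_nonneg_left e1 hC.le
      have e3 : 0 < c.C * ρ := mul_pos hC hρ0
      linarith
    have hε4 : 4 * (K1 * ρ) ≤ (1 / 72) ^ 2 := by
      refine le_trans ?_ hδ4
      gcongr
    have h2v := two_var c hmid huniq hρ0 (hρδ.trans hδ1) (lt_of_le_of_lt (hρδ.trans hδ2)
      (by linarith)) hsmall (by positivity) (by norm_num at hε4 ⊢; linarith) m0 m1 m2
      (by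
        rw [(hu k).2.1, ← hx, hYd]
        exact lt_of_le_of_lt (hpow k) (lt_of_lt_of_le hy hδ5))
      (by
        rw [(hu' k).2.1, ← hx, hθd, hYd]
        exact lt_of_le_of_lt (hpow k) (lt_of_lt_of_le hy hδ5))
      (p := Y (k + 1)) (p' := θ (Y (k + 1)))
      (by rw [(hu k).2.1, ← hx, hYs]; exact hmp1 _)
      (by rw [(hu k).2.1, ← hx, hYs]; exact hmp2 _)
      (by rw [(hu' k).2.1, ← hx, hθd, hθd, hYs]; exact hmp1 _)
      (by rw [(hu' k).2.1, ← hx, hθd, hθ.dist_eq, hYs]; exact hmp2 _)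
    set t : ℝ := 1 / 72 * (3 / 4) ^ k with ht
    have ht0 : 0 < t := by positivity
    have hbound : 4 * (K1 * ρ) ≤ t ^ 2 := by
      have e1 : 4 * (K1 * ρ) = 4 * (K1 * (K * T)) / 2 ^ k := by rw [hρ]; ring
      have e2 : t ^ 2 = (1 / 72) ^ 2 * (9 / 16) ^ k := by
        rw [ht, mul_pow, ← pow_mul, mul_comm k 2, pow_mul]; norm_num
      have e3 : 4 * (K1 * (K * T)) ≤ (1 / 72) ^ 2 := by
        refine le_trans ?_ hδ4
        gcongr
      have e4 : (1 / 2 : ℝ) ^ k ≤ (9 / 16) ^ k := pow_le_pow_left₀ (by norm_num) (by norm_num) k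
      rw [e1, e2]
      calc 4 * (K1 * (K * T)) / 2 ^ k = 4 * (K1 * (K * T)) * (1 / 2) ^ k := by
            rw [one_div, inv_pow]; rfl
        _ ≤ (1 / 72) ^ 2 * (9 / 16) ^ k := by gcongr
    set wk := c.φ (θ (Y k)) - c.φ (Y k) with hwk
    set wk1 := c.φ (θ (Y (k + 1))) - c.φ (Y (k + 1)) with hwk1
    set d := wk1 - (1 / 2 : ℝ) • wk with hd
    have hG0 : c.G c.x₀ d d ≤ t ^ 2 * W k := by
      refine h2v.trans ?_
      exact mul_le_mul_of_nonneg_right hbound (hW k)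
    have hsub := form_sub_le (c.G c.x₀) (c.symm _ (mem_ball_self c.rpos))
      (c.nonneg (mem_ball_self c.rpos)) ht0 wk1 d
    have e5 : wk1 - d = (1 / 2 : ℝ) • wk := by rw [hd]; abel
    rw [e5] at hsub
    have e6 : c.G c.x₀ ((1 / 2 : ℝ) • wk) ((1 / 2 : ℝ) • wk) = 1 / 4 * W k := by
      simp only [map_smul, LinearMap.smul_apply, smul_eq_mul, W]
      ring
    rw [e6] at hsub
    have e7 : (1 + 1 / t) * c.G c.x₀ d d ≤ (t ^ 2 + t) * W k := by
      calc (1 + 1 / t) * c.G c.x₀ d d ≤ (1 + 1 / t) * (t ^ 2 * W k) := by gcongr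
        _ = (t ^ 2 + t) * W k := by field_simp
    have e8 : c.G c.x₀ wk1 wk1 = W (k + 1) := rfl
    rw [e8] at hsub
    have e9 : (1 - 4 * t - 4 * t ^ 2) * W k ≤ (1 + t) * (4 * W (k + 1)) := by linarith
    have e10 : (1 + t) * ((1 - 9 * t) * W k) ≤ (1 - 4 * t - 4 * t ^ 2) * W k := by
      have : (1 - 4 * t - 4 * t ^ 2) * W k - (1 + t) * ((1 - 9 * t) * W k) =
        (4 * t + 5 * t ^ 2) * W k := by ring
      have h6 : 0 ≤ (4 * t + 5 * t ^ 2) * W k := mul_nonneg (by positivity) (hW k)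
      linarith
    exact le_of_mul_le_mul_left (e10.trans e9) (by linarith)
  have hgrow := growth W hW hstep
  -- the derivative gives the opposite
  have hW0 : W 0 = 0 := by
    by_contra hne
    have hpos : 0 < W 0 := lt_of_le_of_ne (hW 0) (Ne.symm hne)
    set B : ℝ := c.C * (c.L * T) ^ 2 with hB
    have hBpos : 0 < B := by positivity
    obtain ⟨δ', hδ', hd'⟩ := hder (Real.sqrt (W 0 / (4 * B))) (Real.sqrt_pos.mpr (by positivity))
    obtain ⟨k, hk⟩ := exists_pow_lt_of_lt_one (show 0 < δ' / (c.L * T) by positivity)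
      (show (1 / 2 : ℝ) < 1 by norm_num)
    have hk' : c.L * (T / 2 ^ k) < δ' := by
      rw [lt_div_iff₀ (by positivity)] at hk
      have : c.L * (T / 2 ^ k) = (1 / 2) ^ k * (c.L * T) := by
        rw [one_div, inv_pow]; field_simp
      rw [this]; exact hk
    have h1 := (hu k).2.2
    rw [hYd] at h1
    have h2 := hd' (c.φ (Y k)) (lt_of_le_of_lt h1 hk')
    rw [(hu k).2.1] at h2
    have h3 := c.upper c.x₀ (mem_ball_self c.rpos) (c.φ (θ (Y k)) - c.φ (Y k))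
    have h4 : ‖c.φ (θ (Y k)) - c.φ (Y k)‖ ≤ Real.sqrt (W 0 / (4 * B)) * (c.L * (T / 2 ^ k)) :=
      h2.trans (mul_le_mul_of_nonneg_left h1 (Real.sqrt_nonneg _))
    have h5 : ‖c.φ (θ (Y k)) - c.φ (Y k)‖ ^ 2 ≤ (W 0 / (4 * B)) * (c.L * (T / 2 ^ k)) ^ 2 := by
      have := pow_le_pow_left₀ (norm_nonneg _) h4 2
      rw [mul_pow, Real.sq_sqrt (by positivity)] at this
      exact this
    have h6 : W k ≤ c.C * ((W 0 / (4 * B)) * (c.L * (T / 2 ^ k)) ^ 2) :=
      h3.trans (mul_le_mul_of_nonneg_left h5 hC.le)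
    have h7 : 4 ^ k * W k ≤ W 0 / 4 := by
      calc 4 ^ k * W k ≤ 4 ^ k * (c.C * ((W 0 / (4 * B)) * (c.L * (T / 2 ^ k)) ^ 2)) := by gcongr
        _ = W 0 / 4 := by
            have : (4 : ℝ) ^ k = 2 ^ k * 2 ^ k := by rw [← mul_pow]; norm_num
            rw [this, hB]
            field_simp
    have h8 := hgrow k
    have h9 : 0 ≤ (3 / 4 : ℝ) ^ k * W 0 := by positivity
    nlinarith
  have hlow := c.lower c.x₀ (mem_ball_self c.rpos) (c.φ (θ (Y 0)) - c.φ (Y 0))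
  have h10 : ‖c.φ (θ (Y 0)) - c.φ (Y 0)‖ ^ 2 ≤ 0 := by
    have : c.lam * ‖c.φ (θ (Y 0)) - c.φ (Y 0)‖ ^ 2 ≤ W 0 := hlow
    rw [hW0] at this
    by_contra hcon
    push Not at hcon
    nlinarith
  have h11 : c.φ (θ (Y 0)) = c.φ (Y 0) := by
    have : ‖c.φ (θ (Y 0)) - c.φ (Y 0)‖ = 0 := by
      have h := sq_nonneg ‖c.φ (θ (Y 0)) - c.φ (Y 0)‖
      exact pow_eq_zero_iff (two_ne_zero) |>.mp (le_antisymm h10 h)
    exact sub_eq_zero.mp (norm_eq_zero.mp this)
  have h12 := (hu' 0).2.1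
  rw [h11, (hu 0).2.1] at h12
  exact h12.symm

end Pool.Agent.TH592.Nag
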