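import Pool.Agent.Helper381.Riem3
import Pool.Agent.TH592.Nag.Rigid

/-! An isometry of a compact connected Riemannian manifold which fixes a point and has
differential `-id` there is an involution with this point as isolated fixed point. -/

namespace Pool.Agent.TH592.Nag

universe u v w

open Bundle Bornology Set MeasureTheory Manifold Filter Metric
open scoped ENNReal ContDiff Topology
open Pool.Agent.Helper381

section Glob

variable {M : Type u} {E : Type v} [MetricSpace M] [NormedAddCommGroup E] [NormedSpace ℝ E]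
  {R : ℝ} (G : Geo M E R)

include G

theorem fix_ball (θ : M → M) (hθ : Isometry θ) {x : M} (h : ∃ δ > 0, ∀ y, dist x y < δ → θ y = y) :
    ∀ y, dist x y < R → θ y = y := by
  obtain ⟨δ, hδ, h⟩ := h
  have hx : θ x = x := h x (by rw [dist_self]; exact hδ)
  have key : ∀ n : ℕ, ∀ y, dist x y < R → dist x y / 2 ^ n < δ → θ y = y := by
    intro n
    induction n with
    | zero =>
      intro y _ hy
      apply h
      simpa using hy
    | succ n ih =>
      intro y hyR hy
      obtain ⟨m, hm1, hm2⟩ := G.midpt x y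
      have hfm : θ m = m := by
        apply ih
        · rw [hm1]; linarith [dist_nonneg (x := x) (y := y)]
        · rw [hm1]
          rw [pow_succ] at hy
          calc dist x y / 2 / 2 ^ n = dist x y / (2 ^ n * 2) := by field_simp
            _ < δ := hy
      apply G.nonbranching (x := x) (q := m) (r := dist x y / 2) (by linarith) hm1 _ _ hm2 (by ring)
      · calc dist m (θ y) = dist (θ m) (θ y) := by rw [hfm]
          _ = dist m y := hθ.dist_eq _ _
          _ = _ := hm2
      · calc dist x (θ y) = dist (θ x) (θ y) := by rw [hx]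
          _ = dist x y := hθ.dist_eq _ _
          _ = _ := by ring
  intro y hy
  rcases eq_or_ne x y with rfl | hne
  · exact hx
  · have hpos : 0 < dist x y := dist_pos.mpr hne
    obtain ⟨n, hn⟩ := exists_pow_lt_of_lt_one (show 0 < δ / dist x y by positivity)
      (show (1 / 2 : ℝ) < 1 by norm_num)
    apply key n y hy
    have : dist x y / 2 ^ n = (1 / 2) ^ n * dist x y := by
      rw [one_div, inv_pow]; field_simp
    rw [this]
    calc (1 / 2) ^ n * dist x y < δ / dist x y * dist x y := by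
          apply mul_lt_mul_of_pos_right hn hpos
      _ = δ := by field_simp

/-- an isometry fixing a ball pointwise is the identity -/
theorem eq_id [PreconnectedSpace M] (θ : M → M) (hθ : Isometry θ) {x : M}
    (h : ∃ δ > 0, ∀ y, dist x y < δ → θ y = y) : ∀ y, θ y = y := by
  let U : Set M := {x | ∃ δ > 0, ∀ y, dist x y < δ → θ y = y}
  have hU : IsClopen U := by
    constructor
    · rw [← isOpen_compl_iff, Metric.isOpen_iff]
      intro z hz
      refine ⟨R / 2, by linarith [G.Rpos], ?_⟩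
      intro z' hz' hz'U
      apply hz
      have h1 := fix_ball G θ hθ hz'U
      refine ⟨R / 2, by linarith [G.Rpos], ?_⟩
      intro y hy
      apply h1
      have := dist_triangle z' z y
      rw [mem_ball] at hz'
      linarith
    · rw [Metric.isOpen_iff]
      intro z hz
      have h1 := fix_ball G θ hθ hz
      refine ⟨R / 2, by linarith [G.Rpos], ?_⟩
      intro z' hz'
      rw [mem_ball] at hz'
      refine ⟨R / 2, by linarith [G.Rpos], ?_⟩
      intro y hy
      apply h1
      have := dist_triangle z z' y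
      rw [dist_comm z z'] at this
      linarith
  have hUu : U = univ := hU.eq_univ ⟨x, h⟩
  intro y
  have hy : y ∈ U := by rw [hUu]; trivial
  obtain ⟨δ, hδ, h⟩ := hy
  exact h y (by rw [dist_self]; exact hδ)

end Glob

section Assemble

variable {E : Type v} [NormedAddCommGroup E] [NormedSpace ℝ E] [FiniteDimensional ℝ E]
  {M : Type u} [MetricSpace M] [ChartedSpace E M] [IsManifold 𝓘(ℝ, E) ∞ M]
  [RiemannianBundle (fun (x : M) ↦ TangentSpace 𝓘(ℝ, E) x)]
  [IsContMDiffRiemannianBundle 𝓘(ℝ, E) ∞ E (fun (x : M) ↦ TangentSpace 𝓘(ℝ, E) x)]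
  [IsRiemannianManifold 𝓘(ℝ, E) M]

theorem exists_loc' (p : M) : ∃ c : Loc M E, c.x₀ = extChartAt 𝓘(ℝ, E) p p ∧
    c.φ = extChartAt 𝓘(ℝ, E) p ∧ c.ψ = psi p ∧ ball c.x₀ c.r ⊆ tgt (E := E) p := by
  obtain ⟨g, hgx, hgt, hG⟩ := exists_metCoef (E := E) p
  refine ⟨{ toMetCoef := g, φ := extChartAt 𝓘(ℝ, E) p, ψ := psi p,
            φψ := fun v hv => (extChartAt 𝓘(ℝ, E) p).right_inv (hgt hv),
            isOpen_image := fun V hV hVo => isOpen_psi_image p (hV.trans hgt) hVo,
            contφ := ?_, contψ := (continuousOn_extChartAt_symm p).mono hgt,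
            up := ?_, lo := ?_ }, hgx, rfl, rfl, hgt⟩
  · apply (continuousOn_extChartAt p).mono
    rintro _ ⟨v, hv, rfl⟩
    exact (extChartAt 𝓘(ℝ, E) p).map_target (hgt hv)
  · intro x hx y hy K hK h
    apply up_chart p _ K hK
    · intro t ht
      have := h t ht
      rwa [hG] at this
    · intro t ht
      apply hgt
      have := (convex_ball g.x₀ g.r) hx hy (by linarith [ht.2] : (0 : ℝ) ≤ 1 - t) ht.1 (by ring)
      have e : (1 - t) • x + t • y = x + t • (y - x) := by module
      rwa [e] at this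
  · intro x hx s K hs hK h y hy
    obtain ⟨w, hw, hwy, hle⟩ := lo_chart p hgt hx hs hK (by
      intro w hw
      have := h w (by rw [hG]; exact hw)
      refine ⟨this.1, fun v => ?_⟩
      have h2 := this.2 v
      rwa [hG, hG] at h2) y hy
    exact ⟨w, hw, hwy, by rw [hG]; exact hle⟩

/-- the differential in the chart -/
theorem chart_deriv (p : M) (s : M → M) (hfix : s p = p) (f' : E →L[ℝ] E)
    (h : HasMFDerivAt 𝓘(ℝ, E) 𝓘(ℝ, E) s p f') :
    HasFDerivAt (fun u => extChartAt 𝓘(ℝ, E) p (s (psi (E := E) p u))) f'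
      (extChartAt 𝓘(ℝ, E) p p) := by
  have h2 := h.2
  unfold writtenInExtChartAt at h2
  rw [hfix] at h2
  have h3 : range (𝓘(ℝ, E)) = univ := by simp
  rw [h3] at h2
  have h4 : HasFDerivWithinAt (𝕜 := ℝ) (E := E) (F := E)
      (fun u => extChartAt 𝓘(ℝ, E) p (s (psi (E := E) p u))) f' univ
      (extChartAt 𝓘(ℝ, E) p p) := h2
  exact hasFDerivWithinAt_univ.mp h4

theorem symmetry_of_deriv [CompactSpace M] [PreconnectedSpace M] (p : M) (s : M → M)
    (hs : Isometry s) (hfix : s p = p)
    (h : HasMFDerivAt 𝓘(ℝ, E) 𝓘(ℝ, E) s p (-ContinuousLinearMap.id ℝ E : E →L[ℝ] E)) :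
    (∀ y, s (s y) = y) ∧ ∃ ε > 0, ∀ y, dist y p < ε → s y = y → y = p := by
  obtain ⟨R, G⟩ := riemannian_geo (E := E) (M := M)
  obtain ⟨c, hx₀, hφ, hψ, hball⟩ := exists_loc' (E := E) p
  have hcp : c.ψ c.x₀ = p := by rw [hψ, hx₀]; exact extChartAt_to_inv p
  have hcφ : c.φ p = c.x₀ := by rw [hφ, hx₀]
  set F : E → E := fun u => c.φ (s (c.ψ u)) with hF
  have hFx : F c.x₀ = c.x₀ := by simp only [hF]; rw [hcp, hfix, hcφ]
  have hFd : HasFDerivAt F (-ContinuousLinearMap.id ℝ E : E →L[ℝ] E) c.x₀ := by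
    have := chart_deriv p s hfix _ h
    rw [← hx₀, ← hφ] at this
    simp only [hF, hψ]
    exact this
  -- points near p
  have hnear : ∀ᶠ y in 𝓝 p, c.ψ (c.φ y) = y := by
    have := extChartAt_source_mem_nhds (I := 𝓘(ℝ, E)) p
    filter_upwards [this] with y hy
    rw [hφ, hψ]
    exact (extChartAt 𝓘(ℝ, E) p).left_inv hy
  have hψc : ContinuousAt c.ψ c.x₀ :=
    c.contψ.continuousAt (isOpen_ball.mem_nhds (mem_ball_self c.rpos))
  have hφc : ContinuousAt c.φ p := by rw [hφ]; exact continuousAt_extChartAt p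
  have hsψ : Tendsto (fun u => s (c.ψ u)) (𝓝 c.x₀) (𝓝 p) := by
    have h1 : ContinuousAt (fun u => s (c.ψ u)) c.x₀ := hs.continuous.continuousAt.comp hψc
    have h2 : s (c.ψ c.x₀) = p := by rw [hcp, hfix]
    have h3 : Tendsto (fun u => s (c.ψ u)) (𝓝 c.x₀) (𝓝 (s (c.ψ c.x₀))) := h1
    rwa [h2] at h3
  constructor
  · -- the square
    have hFF : HasFDerivAt (F ∘ F) (ContinuousLinearMap.id ℝ E) c.x₀ := by
      have h1 : HasFDerivAt F (-ContinuousLinearMap.id ℝ E : E →L[ℝ] E) (F c.x₀) := by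
        rw [hFx]; exact hFd
      have h2 := h1.comp c.x₀ hFd
      have h3 : (-ContinuousLinearMap.id ℝ E : E →L[ℝ] E).comp (-ContinuousLinearMap.id ℝ E) =
          ContinuousLinearMap.id ℝ E := by
        ext v; simp
      rw [h3] at h2
      exact h2
    have heq : (fun u => c.φ (s (s (c.ψ u)))) =ᶠ[𝓝 c.x₀] F ∘ F := by
      filter_upwards [hsψ.eventually hnear] with u hu
      simp only [Function.comp_apply, hF, hu]
    have hd : HasFDerivAt (fun u => c.φ (s (s (c.ψ u)))) (ContinuousLinearMap.id ℝ E) c.x₀ :=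
      hFF.congr_of_eventuallyEq heq
    have hfix2 : s (s (c.ψ c.x₀)) = c.ψ c.x₀ := by rw [hcp, hfix, hfix]
    have hrig := rigid c G.midpt G.Rpos
      (fun x y m m' h0 h1 h2 h3 h4 => G.midpt_unique h0 h1 h2 h3 h4)
      (fun y => s (s y)) (hs.comp hs) hfix2 (by
        intro η hη
        have h1 := hd.isLittleO.def hη
        rw [Metric.eventually_nhds_iff] at h1
        obtain ⟨δ, hδ, h1⟩ := h1
        refine ⟨δ, hδ, fun u hu => ?_⟩
        have h2 := h1 (by rw [dist_eq_norm]; exact hu)
        have h3 : c.φ (s (s (c.ψ u))) - c.φ (s (s (c.ψ c.x₀))) -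
            (ContinuousLinearMap.id ℝ E) (u - c.x₀) = c.φ (s (s (c.ψ u))) - u := by
          rw [hfix2, hcp, hcφ, ContinuousLinearMap.id_apply]; abel
        rw [h3] at h2
        exact h2)
    exact eq_id G (fun y => s (s y)) (hs.comp hs) hrig
  · -- isolated fixed point
    have h1 := hFd.isLittleO.def (show (0 : ℝ) < 1 / 2 by norm_num)
    rw [Metric.eventually_nhds_iff] at h1
    obtain ⟨δ, hδ, h1⟩ := h1
    have h2 : ∀ᶠ y in 𝓝 p, dist (c.φ y) c.x₀ < δ := by
      have : Tendsto c.φ (𝓝 p) (𝓝 (c.φ p)) := hφc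
      rw [hcφ] at this
      exact this.eventually (Metric.ball_mem_nhds _ hδ)
    have h3 := h2.and hnear
    rw [Metric.eventually_nhds_iff] at h3
    obtain ⟨ε, hε, h3⟩ := h3
    refine ⟨ε, hε, fun y hy hsy => ?_⟩
    obtain ⟨a1, a2⟩ := h3 hy
    have h4 := h1 a1
    have h5 : F (c.φ y) = c.φ y := by simp only [hF, a2, hsy]
    rw [h5, hFx] at h4
    have h6 : c.φ y - c.x₀ - (-ContinuousLinearMap.id ℝ E : E →L[ℝ] E) (c.φ y - c.x₀) =
        (2 : ℝ) • (c.φ y - c.x₀) := by
      simp only [neg_apply, ContinuousLinearMap.id_apply]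
      module
    rw [h6, norm_smul] at h4
    have h7 : ‖(2 : ℝ)‖ = 2 := by norm_num
    rw [h7] at h4
    have h8 : ‖c.φ y - c.x₀‖ = 0 := by
      have := norm_nonneg (c.φ y - c.x₀)
      linarith
    have h9 : c.φ y = c.x₀ := sub_eq_zero.mp (norm_eq_zero.mp h8)
    rw [← a2, h9, hcp]

end Assemble

end Pool.Agent.TH592.Nag
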