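import Pool.Agent.Helper381.Energy

/-! Sharper discrete energy estimates: the convexity term at the half of the chains is kept. -/

namespace Pool.Agent.TH592.Nag

universe u v w

open Metric Set
open Pool.Agent.Helper381

variable {E : Type v} [NormedAddCommGroup E] [NormedSpace ℝ E] (g : MetCoef E)

/-- Jensen for a sum split in two halves -/
theorem form_half_le (B : E →ₗ[ℝ] E →ₗ[ℝ] ℝ) (hsymm : ∀ v w, B v w = B w v)
    (hpos : ∀ v, 0 ≤ B v v) (m : ℕ) (δ : ℕ → E) (h0 : δ 0 = 0) :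
    B (δ (2 * m)) (δ (2 * m)) +
      4 * B (δ m - (1 / 2 : ℝ) • δ (2 * m)) (δ m - (1 / 2 : ℝ) • δ (2 * m)) ≤
      ((2 * m : ℕ) : ℝ) * ∑ i ∈ Finset.range (2 * m), B (δ (i + 1) - δ i) (δ (i + 1) - δ i) := by
  have h1 := form_sum_le B hsymm hpos m (fun i => δ (i + 1) - δ i)
  rw [Finset.sum_range_sub, h0, sub_zero] at h1
  have h2 := form_sum_le B hsymm hpos m (fun i => δ (m + i + 1) - δ (m + i))
  have h3 : ∑ i ∈ Finset.range m, (δ (m + i + 1) - δ (m + i)) = δ (2 * m) - δ m := by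
    have := Finset.sum_range_sub (fun i => δ (m + i)) m
    simp only [add_zero] at this
    rw [two_mul]
    exact this
  rw [h3] at h2
  have h4 : ∑ i ∈ Finset.range (2 * m), B (δ (i + 1) - δ i) (δ (i + 1) - δ i) =
      ∑ i ∈ Finset.range m, B (δ (i + 1) - δ i) (δ (i + 1) - δ i) +
      ∑ i ∈ Finset.range m, B (δ (m + i + 1) - δ (m + i)) (δ (m + i + 1) - δ (m + i)) := by
    rw [two_mul, Finset.sum_range_add]
  rw [h4]
  push_cast
  have h5 : B (δ (2 * m)) (δ (2 * m)) +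
      4 * B (δ m - (1 / 2 : ℝ) • δ (2 * m)) (δ m - (1 / 2 : ℝ) • δ (2 * m)) =
      2 * B (δ m) (δ m) + 2 * B (δ (2 * m) - δ m) (δ (2 * m) - δ m) := by
    simp only [map_sub, LinearMap.sub_apply, map_smul, LinearMap.smul_apply, smul_eq_mul]
    rw [hsymm (δ m) (δ (2 * m))]
    ring
  rw [h5]
  linarith

/-- strong convexity of the discrete energy, keeping the term at the half -/
theorem energy_sc2 {ρ A ε : ℝ} (hρ : ρ ≤ g.r) (hA : 0 ≤ A)
    (hsmall : g.C * A ^ 2 + g.C * A / 2 + g.C * ρ / 4 ≤ g.lam * ε) (hε : ε ≤ 1 / 4)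
    {m : ℕ} (hm : 0 < m)
    (a b : ℕ → E) (h0 : a 0 = b 0) (ha : ∀ i ≤ 2 * m, a i ∈ ball g.x₀ ρ)
    (hb : ∀ i ≤ 2 * m, b i ∈ ball g.x₀ ρ)
    (ha' : ∀ i < 2 * m, ‖a (i + 1) - a i‖ ≤ A / (2 * m : ℕ))
    (hb' : ∀ i < 2 * m, ‖b (i + 1) - b i‖ ≤ A / (2 * m : ℕ)) :
    g.energy (2 * m) (fun i => (1 / 2 : ℝ) • (a i + b i)) ≤
      (g.energy (2 * m) a + g.energy (2 * m) b) / 2 -
      (1 / 4 - ε) * (g.G g.x₀ (b (2 * m) - a (2 * m)) (b (2 * m) - a (2 * m)) +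
        4 * g.G g.x₀ ((b m - a m) - (1 / 2 : ℝ) • (b (2 * m) - a (2 * m)))
          ((b m - a m) - (1 / 2 : ℝ) • (b (2 * m) - a (2 * m)))) := by
  set n := 2 * m with hnm
  have hn : 0 < n := by omega
  have hn' : (0 : ℝ) < n := by exact_mod_cast hn
  have h00 : g.x₀ ∈ ball g.x₀ g.r := mem_ball_self g.rpos
  let δ : ℕ → E := fun i => b i - a i
  let η : ℕ → E := fun i => δ (i + 1) - δ i
  let β : ℕ → E := fun i => (1 / 2 : ℝ) • (a (i + 1) + b (i + 1)) - (1 / 2 : ℝ) • (a i + b i)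
  have e1 : ∀ i, β i - (1 / 2 : ℝ) • η i = a (i + 1) - a i := by
    intro i; simp only [β, η, δ]; module
  have e2 : ∀ i, β i + (1 / 2 : ℝ) • η i = b (i + 1) - b i := by
    intro i; simp only [β, η, δ]; module
  have hβ : ∀ i < n, ‖β i‖ ≤ A / n := by
    intro i hi
    have : β i = (1 / 2 : ℝ) • ((a (i + 1) - a i) + (b (i + 1) - b i)) := by
      simp only [β]; module
    rw [this, norm_smul]
    have h1 := norm_add_le (a (i + 1) - a i) (b (i + 1) - b i)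
    have h2 := ha' i hi
    have h3 := hb' i hi
    have : ‖(1 / 2 : ℝ)‖ = 1 / 2 := by norm_num
    rw [this]
    linarith
  set err : ℕ → ℝ := fun i => g.C * ‖a i - b i‖ ^ 2 * ‖β i‖ ^ 2 +
    g.C / 2 * ‖a i - b i‖ * ‖β i‖ * ‖η i‖ + g.C * ρ / 4 * ‖η i‖ ^ 2 with herr
  have hstep : ∀ i ∈ Finset.range n, g.G ((1 / 2 : ℝ) • (a i + b i)) (β i) (β i) ≤
      (g.G (a i) (a (i + 1) - a i) (a (i + 1) - a i) +
        g.G (b i) (b (i + 1) - b i) (b (i + 1) - b i)) / 2 -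
        1 / 4 * g.G g.x₀ (η i) (η i) + err i := by
    intro i hi
    rw [Finset.mem_range] at hi
    have := g.step hρ (ha i hi.le) (hb i hi.le) (β i) (η i)
    rw [e1, e2, abs_le] at this
    simp only [herr]
    linarith [this.1]
  have hsum := Finset.sum_le_sum hstep
  have hδ0 : δ 0 = 0 := by simp [δ, h0]
  have hδ : ∀ i, δ i = ∑ j ∈ Finset.range i, η j := by
    intro i
    rw [Finset.sum_range_sub]
    simp [δ, h0]
  set D := ∑ j ∈ Finset.range n, ‖η j‖ with hD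
  have hδn : ∀ i < n, ‖a i - b i‖ ≤ D := by
    intro i hi
    have : ‖a i - b i‖ = ‖δ i‖ := by simp only [δ]; rw [norm_sub_rev]
    rw [this, hδ]
    refine (norm_sum_le _ _).trans ?_
    exact Finset.sum_le_sum_of_subset_of_nonneg (Finset.range_mono hi.le)
      (fun _ _ _ => norm_nonneg _)
  have hD0 : 0 ≤ D := Finset.sum_nonneg fun _ _ => norm_nonneg _
  have herrb := g.err_bound (ρ := ρ) hA hn D (fun i => ‖a i - b i‖) (fun i => ‖β i‖)
    (fun i => ‖η i‖) (fun _ _ => norm_nonneg _) (fun _ _ => norm_nonneg _)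
    (fun _ _ => norm_nonneg _) hδn hD0 (sq_sum_le n _) le_rfl hβ
  have hH0 : 0 ≤ (n : ℝ) * ∑ i ∈ Finset.range n, ‖η i‖ ^ 2 := by positivity
  have hX : g.lam * (n * ∑ i ∈ Finset.range n, ‖η i‖ ^ 2) ≤
      n * ∑ i ∈ Finset.range n, g.G g.x₀ (η i) (η i) := by
    have : g.lam * (n * ∑ i ∈ Finset.range n, ‖η i‖ ^ 2) =
        n * ∑ i ∈ Finset.range n, g.lam * ‖η i‖ ^ 2 := by
      rw [← Finset.mul_sum]; ring
    rw [this]
    apply mul_le_mul_of_nonneg_left _ hn'.le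
    exact Finset.sum_le_sum fun i _ => g.lower _ h00 _
  have hQ := form_half_le (g.G g.x₀) (g.symm _ h00) (g.nonneg h00) m δ hδ0
  rw [← hnm] at hQ
  have hE : g.energy n (fun i => (1 / 2 : ℝ) • (a i + b i)) =
      n * ∑ i ∈ Finset.range n, g.G ((1 / 2 : ℝ) • (a i + b i)) (β i) (β i) := rfl
  have hEa : g.energy n a = n * ∑ i ∈ Finset.range n,
      g.G (a i) (a (i + 1) - a i) (a (i + 1) - a i) := rfl
  have hEb : g.energy n b = n * ∑ i ∈ Finset.range n,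
      g.G (b i) (b (i + 1) - b i) (b (i + 1) - b i) := rfl
  have hsum' : ∑ i ∈ Finset.range n, ((g.G (a i) (a (i + 1) - a i) (a (i + 1) - a i) +
        g.G (b i) (b (i + 1) - b i) (b (i + 1) - b i)) / 2 -
        1 / 4 * g.G g.x₀ (η i) (η i) + err i) =
      (∑ i ∈ Finset.range n, g.G (a i) (a (i + 1) - a i) (a (i + 1) - a i) +
        ∑ i ∈ Finset.range n, g.G (b i) (b (i + 1) - b i) (b (i + 1) - b i)) / 2 -
        1 / 4 * ∑ i ∈ Finset.range n, g.G g.x₀ (η i) (η i) + ∑ i ∈ Finset.range n, err i := by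
    rw [Finset.sum_add_distrib, Finset.sum_sub_distrib, ← Finset.sum_div,
      Finset.sum_add_distrib, ← Finset.mul_sum]
  rw [hsum'] at hsum
  have hm' := mul_le_mul_of_nonneg_left hsum hn'.le
  have h9 := mul_le_mul_of_nonneg_right hsmall hH0
  have herrb' : n * ∑ i ∈ Finset.range n, err i ≤
    (g.C * A ^ 2 + g.C * A / 2 + g.C * ρ / 4) * (n * ∑ i ∈ Finset.range n, ‖η i‖ ^ 2) := herrb
  have hε0 : 0 ≤ ε := by
    have hρ0 : 0 ≤ ρ := by
      have := ha 0 (by omega)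
      rw [mem_ball] at this
      exact le_trans dist_nonneg this.le
    have h1 : 0 ≤ g.C * A ^ 2 + g.C * A / 2 + g.C * ρ / 4 := by
      have := g.Cpos
      positivity
    by_contra hcon
    push Not at hcon
    nlinarith [g.lampos]
  have h10 := mul_le_mul_of_nonneg_left hX hε0
  have h11 := mul_le_mul_of_nonneg_left hQ (by linarith : (0:ℝ) ≤ 1 / 4 - ε)
  change (1 / 4 - ε) * (g.G g.x₀ (b n - a n) (b n - a n) +
        4 * g.G g.x₀ ((b m - a m) - (1 / 2 : ℝ) • (b n - a n))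
          ((b m - a m) - (1 / 2 : ℝ) • (b n - a n))) ≤
      (1 / 4 - ε) * (n * ∑ i ∈ Finset.range n, g.G g.x₀ (η i) (η i)) at h11
  rw [hE, hEa, hEb]
  set S1 := ∑ i ∈ Finset.range n, g.G g.x₀ (η i) (η i)
  set S2 := ∑ i ∈ Finset.range n, ‖η i‖ ^ 2
  have h12 : g.lam * ε * (n * S2) = ε * (g.lam * (n * S2)) := by ring
  rw [h12] at h9
  nlinarith [hm', h9, herrb', h10, h11]

/-- semiconcavity of the discrete energy -/
theorem energy_scc2 {ρ A ε : ℝ} (hρ : ρ ≤ g.r) (hA : 0 ≤ A)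
    (hsmall : g.C * A ^ 2 + g.C * A / 2 + g.C * ρ / 4 ≤ g.lam * ε) (hε0 : 0 ≤ ε)
    {n : ℕ} (hn : 0 < n)
    (m : ℕ → E) (e : E) (ha : ∀ i ≤ n, m i + ((i : ℝ) / n) • e ∈ ball g.x₀ ρ)
    (hb : ∀ i ≤ n, m i - ((i : ℝ) / n) • e ∈ ball g.x₀ ρ)
    (hm : ∀ i < n, ‖m (i + 1) - m i‖ ≤ A / n) :
    (g.energy n (fun i => m i + ((i : ℝ) / n) • e) +
      g.energy n (fun i => m i - ((i : ℝ) / n) • e)) / 2 ≤
      g.energy n m + (1 + 4 * ε) * g.G g.x₀ e e := by
  have hn' : (0 : ℝ) < n := by exact_mod_cast hn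
  have h00 : g.x₀ ∈ ball g.x₀ g.r := mem_ball_self g.rpos
  let a : ℕ → E := fun i => m i + ((i : ℝ) / n) • e
  let b : ℕ → E := fun i => m i - ((i : ℝ) / n) • e
  let η : E := -((2 : ℝ) / n) • e
  let β : ℕ → E := fun i => m (i + 1) - m i
  have e0 : ∀ i, (1 / 2 : ℝ) • (a i + b i) = m i := by
    intro i; simp only [a, b]; module
  have e1 : ∀ i, β i - (1 / 2 : ℝ) • η = a (i + 1) - a i := by
    intro i
    simp only [β, η, a]
    push_cast
    have : (((i : ℝ) + 1) / n) = (i : ℝ) / n + 1 / n := by ring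
    rw [this]
    module
  have e2 : ∀ i, β i + (1 / 2 : ℝ) • η = b (i + 1) - b i := by
    intro i
    simp only [β, η, b]
    push_cast
    have : (((i : ℝ) + 1) / n) = (i : ℝ) / n + 1 / n := by ring
    rw [this]
    module
  set err : ℕ → ℝ := fun i => g.C * ‖a i - b i‖ ^ 2 * ‖β i‖ ^ 2 +
    g.C / 2 * ‖a i - b i‖ * ‖β i‖ * ‖η‖ + g.C * ρ / 4 * ‖η‖ ^ 2 with herr
  have hstep : ∀ i ∈ Finset.range n,
      (g.G (a i) (a (i + 1) - a i) (a (i + 1) - a i) +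
        g.G (b i) (b (i + 1) - b i) (b (i + 1) - b i)) / 2 ≤
        g.G (m i) (β i) (β i) + 1 / 4 * g.G g.x₀ η η + err i := by
    intro i hi
    rw [Finset.mem_range] at hi
    have := g.step hρ (ha i hi.le) (hb i hi.le) (β i) η
    change |(g.G (a i) (β i - (1 / 2 : ℝ) • η) (β i - (1 / 2 : ℝ) • η) +
      g.G (b i) (β i + (1 / 2 : ℝ) • η) (β i + (1 / 2 : ℝ) • η)) / 2 -
      g.G ((1 / 2 : ℝ) • (a i + b i)) (β i) (β i) - 1 / 4 * g.G g.x₀ η η| ≤
      g.C * ‖a i - b i‖ ^ 2 * ‖β i‖ ^ 2 +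
    g.C / 2 * ‖a i - b i‖ * ‖β i‖ * ‖η‖ + g.C * ρ / 4 * ‖η‖ ^ 2 at this
    rw [e1, e2, e0, abs_le] at this
    simp only [herr]
    linarith [this.2]
  have hsum := Finset.sum_le_sum hstep
  have hηn : ‖η‖ = 2 / n * ‖e‖ := by
    simp only [η]
    rw [norm_smul, norm_neg, Real.norm_of_nonneg (by positivity)]
  have hδn : ∀ i < n, ‖a i - b i‖ ≤ 2 * ‖e‖ := by
    intro i hi
    have : a i - b i = (2 * ((i : ℝ) / n)) • e := by simp only [a, b]; module
    rw [this, norm_smul, Real.norm_of_nonneg (by positivity)]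
    have h1 : (i : ℝ) / n ≤ 1 := by
      rw [div_le_one hn']; exact_mod_cast hi.le
    have := norm_nonneg e
    nlinarith
  have hsumη : ∑ _i ∈ Finset.range n, ‖η‖ = 2 * ‖e‖ := by
    rw [Finset.sum_const, Finset.card_range, nsmul_eq_mul, hηn]
    field_simp
  have hsumη2 : (n : ℝ) * ∑ _i ∈ Finset.range n, ‖η‖ ^ 2 = 4 * ‖e‖ ^ 2 := by
    rw [Finset.sum_const, Finset.card_range, nsmul_eq_mul, hηn]
    field_simp
    ring
  have herrb := g.err_bound (ρ := ρ) hA hn (2 * ‖e‖) (fun i => ‖a i - b i‖) (fun i => ‖β i‖)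
    (fun _ => ‖η‖) (fun _ _ => norm_nonneg _) (fun _ _ => norm_nonneg _)
    (fun _ _ => norm_nonneg _) hδn (by positivity) (by rw [hsumη2]; ring_nf; rfl) hsumη.le hm
  rw [hsumη2] at herrb
  have hX : g.lam * ‖e‖ ^ 2 ≤ g.G g.x₀ e e := g.lower _ h00 _
  have hGη : (n : ℝ) * ∑ _i ∈ Finset.range n, g.G g.x₀ η η = 4 * g.G g.x₀ e e := by
    rw [Finset.sum_const, Finset.card_range, nsmul_eq_mul]
    simp only [η, map_smul, LinearMap.smul_apply, smul_eq_mul]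
    field_simp
    ring
  have hE : g.energy n m = n * ∑ i ∈ Finset.range n, g.G (m i) (β i) (β i) := rfl
  have hEa : g.energy n (fun i => m i + ((i : ℝ) / n) • e) = n * ∑ i ∈ Finset.range n,
      g.G (a i) (a (i + 1) - a i) (a (i + 1) - a i) := rfl
  have hEb : g.energy n (fun i => m i - ((i : ℝ) / n) • e) = n * ∑ i ∈ Finset.range n,
      g.G (b i) (b (i + 1) - b i) (b (i + 1) - b i) := rfl
  have hs1 : ∑ i ∈ Finset.range n, (g.G (a i) (a (i + 1) - a i) (a (i + 1) - a i) +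
        g.G (b i) (b (i + 1) - b i) (b (i + 1) - b i)) / 2 =
      (∑ i ∈ Finset.range n, g.G (a i) (a (i + 1) - a i) (a (i + 1) - a i) +
        ∑ i ∈ Finset.range n, g.G (b i) (b (i + 1) - b i) (b (i + 1) - b i)) / 2 := by
    rw [← Finset.sum_div, Finset.sum_add_distrib]
  have hs2 : ∑ i ∈ Finset.range n, (g.G (m i) (β i) (β i) + 1 / 4 * g.G g.x₀ η η + err i) =
      ∑ i ∈ Finset.range n, g.G (m i) (β i) (β i) +
        1 / 4 * ∑ _i ∈ Finset.range n, g.G g.x₀ η η + ∑ i ∈ Finset.range n, err i := by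
    rw [Finset.sum_add_distrib, Finset.sum_add_distrib, ← Finset.mul_sum]
  rw [hs1, hs2] at hsum
  have hm' := mul_le_mul_of_nonneg_left hsum hn'.le
  have h9 := mul_le_mul_of_nonneg_right hsmall (by positivity : (0 : ℝ) ≤ 4 * ‖e‖ ^ 2)
  have herrb' : n * ∑ i ∈ Finset.range n, err i ≤
    (g.C * A ^ 2 + g.C * A / 2 + g.C * ρ / 4) * (4 * ‖e‖ ^ 2) := herrb
  have h10 := mul_le_mul_of_nonneg_left hX hε0
  rw [hE, hEa, hEb]
  nlinarith [hm', h9, herrb', h10, hGη]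

end Pool.Agent.TH592.Nag
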