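import Pool.Agent.TH592.Nag.Bridge
import Pool.Agent.Helper381.Main

/-! Universal coefficients: duality over a field, and the comparison of mod 2 and real Betti
numbers when there is no integral homology class of order two. -/

set_option autoImplicit false

namespace Pool.Agent.TH592.Nag

open Pool.Agent.Helper381 Module

noncomputable section

section Change

variable {R S : Type} [CommRing R] [CommRing S] {X : Type} [TopologicalSpace X]

theorem bd_single (n : ℕ) (σ : Sing X (n + 1)) (r : R) :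
    bd R X n (Finsupp.single σ r) =
      ∑ i : Fin (n + 2), ((-1 : ℤ) ^ (i : ℕ)) • Finsupp.single (sface n i σ) r := by
  rw [bd, Finsupp.linearCombination_single, Finset.smul_sum]
  refine Finset.sum_congr rfl fun i _ => ?_
  rw [smul_comm, Finsupp.smul_single, smul_eq_mul, mul_one]

/-- change of coefficients -/
def cm (φ : R →+ S) (n : ℕ) : (Sing X n →₀ R) →+ (Sing X n →₀ S) :=
  Finsupp.mapRange.addMonoidHom φ

theorem cm_single (φ : R →+ S) (n : ℕ) (σ : Sing X n) (r : R) :
    cm φ n (Finsupp.single σ r) = Finsupp.single σ (φ r) := by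
  rw [cm, Finsupp.mapRange.addMonoidHom_apply, Finsupp.mapRange_single]

theorem cm_apply (φ : R →+ S) (n : ℕ) (c : Sing X n →₀ R) (σ : Sing X n) :
    cm φ n c σ = φ (c σ) := by
  rw [cm, Finsupp.mapRange.addMonoidHom_apply, Finsupp.mapRange_apply]

theorem cm_bd (φ : R →+ S) (n : ℕ) (c : Sing X (n + 1) →₀ R) :
    cm φ n (bd R X n c) = bd S X n (cm φ (n + 1) c) := by
  induction c using Finsupp.induction_linear with
  | zero => simp
  | add a b ha hb => rw [map_add, map_add, map_add, map_add, ha, hb]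
  | single σ r =>
    rw [bd_single, map_sum, cm_single, bd_single]
    refine Finset.sum_congr rfl fun i _ => ?_
    rw [map_zsmul, cm_single]

end Change

section Pairing

variable {k : Type} [CommRing k] {X : Type} [TopologicalSpace X]

/-- evaluation of a cochain -/
def ev (n : ℕ) (f : Sing X n → k) : (Sing X n →₀ k) →ₗ[k] k := Finsupp.linearCombination k f

theorem ev_single (n : ℕ) (f : Sing X n → k) (σ : Sing X n) (r : k) :
    ev n f (Finsupp.single σ r) = r * f σ := by
  rw [ev, Finsupp.linearCombination_single, smul_eq_mul]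

theorem ev_bd (n : ℕ) (f : Sing X n → k) (c : Sing X (n + 1) →₀ k) :
    ev n f (bd k X n c) = ev (n + 1) (altd k (sface (X := X)) n f) c := by
  induction c using Finsupp.induction_linear with
  | zero => simp
  | add a b ha hb => rw [map_add, map_add, map_add, ha, hb]
  | single σ r =>
    rw [bd_single, map_sum, ev_single, altd_apply, Finset.mul_sum]
    refine Finset.sum_congr rfl fun i _ => ?_
    rw [map_zsmul, ev_single, zsmul_eq_mul]
    push_cast
    ring

theorem ev_add (n : ℕ) (f g : Sing X n → k) : ev n (f + g) = ev n f + ev n g := by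
  apply LinearMap.ext
  intro c
  induction c using Finsupp.induction_linear with
  | zero => simp
  | add a b ha hb => rw [map_add, map_add, ha, hb]
  | single σ r =>
    rw [LinearMap.add_apply, ev_single, ev_single, ev_single, Pi.add_apply, mul_add]

theorem ev_smul (n : ℕ) (a : k) (f : Sing X n → k) : ev n (a • f) = a • ev n f := by
  apply LinearMap.ext
  intro c
  induction c using Finsupp.induction_linear with
  | zero => simp
  | add a b ha hb => rw [map_add, map_add, ha, hb]
  | single σ r =>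
    rw [LinearMap.smul_apply, ev_single, ev_single, Pi.smul_apply, smul_eq_mul, smul_eq_mul]
    ring

theorem bd_bd (n : ℕ) (c : Sing X (n + 2) →₀ k) : bd k X n (bd k X (n + 1) c) = 0 := by
  classical
  apply Finsupp.ext
  intro τ
  have h1 : ∀ z : Sing X n →₀ k, ev n (Pi.single τ (1 : k)) z = z τ := by
    intro z
    induction z using Finsupp.induction_linear with
    | zero => simp
    | add a b ha hb => rw [map_add, ha, hb, Finsupp.add_apply]
    | single σ r =>
      rw [ev_single, Finsupp.single_apply, Pi.single_apply]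
      split_ifs <;> simp
  rw [← h1, ev_bd, ev_bd, altd_altd (sface (X := X)) (fun n i j σ h => sface_sface n i j σ h)]
  have h0 : ev (k := k) (X := X) (n + 2) 0 = 0 := by
    apply LinearMap.ext
    intro c
    induction c using Finsupp.induction_linear with
    | zero => simp
    | add a b ha hb => rw [map_add, map_add, ha, hb]
    | single σ r => rw [ev_single]; simp
  change ev (n + 2) 0 c = _
  rw [h0]
  rfl

theorem bou_le_cyc (n : ℕ) : bou k X n ≤ cyc k X n := by
  cases n with
  | zero => exact le_top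
  | succ n =>
    rintro _ ⟨b, rfl⟩
    exact bd_bd n b

end Pairing

section Dual

variable (k : Type) [Field k] (X : Type) [TopologicalSpace X]

/-- pairing of cocycles with homology -/
def pair (n : ℕ) : LinearMap.ker (altd k (sface (X := X)) n) →ₗ[k] Dual k (Hm k X n) where
  toFun f := Submodule.liftQ _ ((ev n f.1).comp (cyc k X n).subtype) (by
    rintro ⟨z, hz⟩ ⟨b, hb⟩
    change ev n f.1 z = 0
    have hb' : bd k X n b = z := hb
    rw [← hb', ev_bd]
    have h1 : altd k (sface (X := X)) n f.1 = 0 := f.2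
    rw [h1]
    have := ev_smul (k := k) (X := X) (n + 1) 0 0
    rw [zero_smul, zero_smul] at this
    rw [this]
    rfl)
  map_add' f g := by
    apply LinearMap.ext
    intro q
    obtain ⟨z, rfl⟩ := Submodule.mkQ_surjective _ q
    change ev n (f.1 + g.1) z.1 = ev n f.1 z.1 + ev n g.1 z.1
    rw [ev_add]
    rfl
  map_smul' a f := by
    apply LinearMap.ext
    intro q
    obtain ⟨z, rfl⟩ := Submodule.mkQ_surjective _ q
    change ev n (a • f.1) z.1 = a * ev n f.1 z.1
    rw [ev_smul]
    rfl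

theorem pair_mk (n : ℕ) (f : LinearMap.ker (altd k (sface (X := X)) n)) (z : cyc k X n) :
    pair k X n f (Submodule.Quotient.mk z) = ev n f.1 z.1 := rfl

theorem pair_surj (n : ℕ) : Function.Surjective (pair k X n) := by
  intro ψ
  let ψ1 : cyc k X n →ₗ[k] k := ψ.comp (Submodule.mkQ _)
  obtain ⟨φ, hφ⟩ := LinearMap.exists_extend ψ1
  have h1 : ev n (fun σ => φ (Finsupp.single σ 1)) = φ := by
    apply LinearMap.ext
    intro c
    induction c using Finsupp.induction_linear with
    | zero => simp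
    | add a b ha hb => rw [map_add, map_add, ha, hb]
    | single σ r =>
      rw [ev_single, ← smul_eq_mul, ← map_smul, Finsupp.smul_single, smul_eq_mul, mul_one]
  have h2 : altd k (sface (X := X)) n (fun σ => φ (Finsupp.single σ 1)) = 0 := by
    funext τ
    have h3 := ev_bd n (fun σ => φ (Finsupp.single σ (1 : k))) (Finsupp.single τ (1 : k))
    rw [ev_single, one_mul, h1] at h3
    rw [← h3]
    have h4 : bd k X n (Finsupp.single τ (1 : k)) ∈ cyc k X n := bou_le_cyc n ⟨_, rfl⟩
    have h5 : φ (bd k X n (Finsupp.single τ (1 : k))) = ψ1 ⟨_, h4⟩ :=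
      LinearMap.congr_fun hφ ⟨_, h4⟩
    rw [h5]
    change ψ (Submodule.Quotient.mk ⟨_, h4⟩) = 0
    have h6 : (Submodule.Quotient.mk ⟨_, h4⟩ : Hm k X n) = 0 :=
      (Submodule.Quotient.mk_eq_zero _).mpr ⟨_, rfl⟩
    rw [h6, map_zero]
  refine ⟨⟨_, h2⟩, ?_⟩
  apply LinearMap.ext
  intro q
  obtain ⟨z, rfl⟩ := Submodule.mkQ_surjective _ q
  change ev n (fun σ => φ (Finsupp.single σ 1)) z.1 = _
  rw [h1]
  exact LinearMap.congr_fun hφ z

theorem pair_ker (n : ℕ) : LinearMap.ker (pair k X n) =
    (cobound k (fun n => Sing X n → k) (fun n => altd k (sface (X := X)) n) n).comap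
      (LinearMap.ker (altd k (sface (X := X)) n)).subtype := by
  ext f
  have h0 : f ∈ LinearMap.ker (pair k X n) ↔ ∀ z ∈ cyc k X n, ev n f.1 z = 0 := by
    constructor
    · intro h z hz
      have h1 : pair k X n f = 0 := h
      have := pair_mk k X n f ⟨z, hz⟩
      rw [h1] at this
      exact this.symm
    · intro h
      apply LinearMap.ext
      intro q
      obtain ⟨z, rfl⟩ := Submodule.mkQ_surjective _ q
      exact h z.1 z.2
  rw [h0, Submodule.mem_comap]
  cases n with
  | zero =>
    constructor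
    · intro h
      change f.1 = 0
      funext σ
      have := h (Finsupp.single σ 1) trivial
      rw [ev_single, one_mul] at this
      exact this
    · intro h z _
      have h1 : f.1 = 0 := h
      rw [h1]
      have := ev_smul (k := k) (X := X) 0 0 0
      rw [zero_smul, zero_smul] at this
      rw [this]
      rfl
  | succ n =>
    constructor
    · intro h
      have h1 : ev (n + 1) f.1 ∈ (LinearMap.ker (bd k X n)).dualAnnihilator := by
        rw [Submodule.mem_dualAnnihilator]
        exact h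
      rw [← LinearMap.range_dualMap_eq_dualAnnihilator_ker] at h1
      obtain ⟨g, hg⟩ := h1
      refine ⟨fun σ => g (Finsupp.single σ 1), ?_⟩
      have h2 : ev n (fun σ => g (Finsupp.single σ 1)) = g := by
        apply LinearMap.ext
        intro c
        induction c using Finsupp.induction_linear with
        | zero => simp
        | add a b ha hb => rw [map_add, map_add, ha, hb]
        | single σ r =>
          rw [ev_single, ← smul_eq_mul, ← map_smul, Finsupp.smul_single, smul_eq_mul, mul_one]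
      funext τ
      have h3 := ev_bd n (fun σ => g (Finsupp.single σ (1 : k))) (Finsupp.single τ (1 : k))
      rw [ev_single, one_mul, h2] at h3
      rw [← h3]
      have h4 := LinearMap.congr_fun hg (Finsupp.single τ (1 : k))
      rw [ev_single, one_mul] at h4
      exact h4
    · rintro ⟨g, hg⟩ z hz
      have hg' : altd k (sface (X := X)) n g = f.1 := hg
      rw [← hg', ← ev_bd]
      have hz' : bd k X n z = 0 := hz
      rw [hz', map_zero]

theorem coh_dual (n : ℕ) : Nonempty (SingCoh k X n ≃ₗ[k] Dual k (Hm k X n)) :=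
  ⟨(Submodule.quotEquivOfEq _ _ (pair_ker k X n).symm).trans
    ((pair k X n).quotKerEquivOfSurjective (pair_surj k X n))⟩

theorem hm_finite (n : ℕ) (h : Module.Finite k (SingCoh k X n)) : Module.Finite k (Hm k X n) := by
  obtain ⟨e⟩ := coh_dual k X n
  have h1 : Module.Finite k (Dual k (Hm k X n)) := Module.Finite.equiv e
  exact (Module.finite_dual_iff k).mp h1

theorem finrank_hm (n : ℕ) (h : Module.Finite k (SingCoh k X n)) :
    finrank k (Hm k X n) = finrank k (SingCoh k X n) := by
  obtain ⟨e⟩ := coh_dual k X n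
  have := hm_finite k X n h
  rw [e.finrank_eq, Subspace.dual_finrank_eq]

end Dual

section Lift

variable {X : Type} [TopologicalSpace X]

/-- no classes of order two in integral homology (in terms of explicit chains) -/
def NoTwo (X : Type) [TopologicalSpace X] (n : ℕ) : Prop :=
  ∀ z ∈ cyc ℤ X n, (2 : ℤ) • z ∈ bou ℤ X n → z ∈ bou ℤ X n

/-- integers to integers mod 2 -/
abbrev m2 : ℤ →+ ZMod 2 := (Int.castRingHom (ZMod 2)).toAddMonoidHom

theorem lift_chain (n : ℕ) (c : Sing X n →₀ ZMod 2) :
    ∃ b : Sing X n →₀ ℤ, cm m2 n b = c := by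
  induction c using Finsupp.induction_linear with
  | zero => exact ⟨0, map_zero _⟩
  | add a b ha hb =>
    obtain ⟨a', ha'⟩ := ha
    obtain ⟨b', hb'⟩ := hb
    exact ⟨a' + b', by rw [map_add, ha', hb']⟩
  | single σ r =>
    refine ⟨Finsupp.single σ (r.val : ℤ), ?_⟩
    rw [cm_single]
    congr 1
    change (((r.val : ℕ) : ℤ) : ZMod 2) = r
    simp

theorem half_chain (n : ℕ) (b : Sing X n →₀ ℤ) (h : cm m2 n b = 0) :
    ∃ w : Sing X n →₀ ℤ, b = (2 : ℤ) • w := by
  have h1 : ∀ σ, ∃ y : ℤ, b σ = 2 * y := by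
    intro σ
    have h2 : ((b σ : ℤ) : ZMod 2) = 0 := by
      have h3 := cm_apply m2 n b σ
      rw [h] at h3
      exact h3.symm
    exact (ZMod.intCast_zmod_eq_zero_iff_dvd (b σ) 2).mp h2
  choose y hy using h1
  refine ⟨Finsupp.onFinset b.support y (fun σ hσ => ?_), ?_⟩
  · rw [Finsupp.mem_support_iff, hy σ]
    intro h3
    apply hσ
    omega
  · apply Finsupp.ext
    intro σ
    rw [Finsupp.smul_apply, Finsupp.onFinset_apply, hy σ, smul_eq_mul]

theorem lift_cyc (n : ℕ) (h : ∀ m, m + 1 = n → NoTwo X m) (c : Sing X n →₀ ZMod 2)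
    (hc : c ∈ cyc (ZMod 2) X n) : ∃ z ∈ cyc ℤ X n, cm m2 n z = c := by
  obtain ⟨b, rfl⟩ := lift_chain n c
  cases n with
  | zero => exact ⟨b, trivial, rfl⟩
  | succ n =>
    have h1 : bd (ZMod 2) X n (cm m2 (n + 1) b) = 0 := hc
    rw [← cm_bd] at h1
    obtain ⟨w, hw⟩ := half_chain n _ h1
    have h2 : (2 : ℤ) • w ∈ bou ℤ X n := ⟨b, hw⟩
    have h3 : w ∈ cyc ℤ X n := by
      cases n with
      | zero => trivial
      | succ n =>
        have h4 : bd ℤ X n ((2 : ℤ) • w) = 0 := by rw [← hw, bd_bd]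
        rw [map_smul] at h4
        change bd ℤ X n w = 0
        apply Finsupp.ext
        intro σ
        have h5 := DFunLike.congr_fun h4 σ
        rw [Finsupp.smul_apply, smul_eq_mul] at h5
        change 2 * (bd ℤ X n w) σ = 0 at h5
        change (bd ℤ X n w) σ = 0
        omega
    obtain ⟨u, hu⟩ := h n rfl w h3 h2
    refine ⟨b - (2 : ℤ) • u, ?_, ?_⟩
    · change bd ℤ X n (b - (2 : ℤ) • u) = 0
      rw [map_sub, map_smul, hw, hu, sub_self]
    · rw [map_sub]
      have h6 : cm m2 (n + 1) ((2 : ℤ) • u) = 0 := by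
        apply Finsupp.ext
        intro σ
        rw [cm_apply, Finsupp.smul_apply, smul_eq_mul]
        change ((2 * u σ : ℤ) : ZMod 2) = 0
        push_cast
        have h2z : (2 : ZMod 2) = 0 := rfl
        rw [h2z, zero_mul]
      rw [h6, sub_zero]

theorem clear (n : ℕ) (B : Sing X n →₀ ℚ) : ∃ N : ℤ, N ≠ 0 ∧ ∃ B' : Sing X n →₀ ℤ,
    cm (Int.castRingHom ℚ).toAddMonoidHom n B' = (N : ℚ) • B := by
  induction B using Finsupp.induction_linear with
  | zero => exact ⟨1, one_ne_zero, 0, by simp⟩
  | add a b ha hb =>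
    obtain ⟨N, hN, a', ha'⟩ := ha
    obtain ⟨N', hN', b', hb'⟩ := hb
    refine ⟨N * N', mul_ne_zero hN hN', N' • a' + N • b', ?_⟩
    rw [map_add, map_zsmul, map_zsmul, ha', hb']
    rw [← Int.cast_smul_eq_zsmul ℚ N', ← Int.cast_smul_eq_zsmul ℚ N, smul_smul, smul_smul,
      smul_add]
    push_cast
    rw [mul_comm (N' : ℚ)]
  | single σ r =>
    refine ⟨r.den, by exact_mod_cast r.den_ne_zero, Finsupp.single σ r.num, ?_⟩
    rw [cm_single, Finsupp.smul_single]
    congr 1
    change ((r.num : ℤ) : ℚ) = _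
    rw [smul_eq_mul]
    push_cast
    rw [Rat.den_mul_eq_num]

theorem clear_fun {m : ℕ} (q : Fin m → ℚ) : ∃ N : ℤ, N ≠ 0 ∧ ∃ A : Fin m → ℤ,
    ∀ i, (A i : ℚ) = N * q i := by
  classical
  refine ⟨∏ i, ((q i).den : ℤ), ?_, fun i => (q i).num * ∏ j ∈ Finset.univ.erase i, ((q j).den : ℤ),
    fun i => ?_⟩
  · rw [Finset.prod_ne_zero_iff]
    intro i _
    exact_mod_cast (q i).den_ne_zero
  · rw [← Finset.mul_prod_erase Finset.univ (fun j => ((q j).den : ℤ)) (Finset.mem_univ i)]
    push_cast
    have := Rat.den_mul_eq_num (q i)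
    rw [← this]
    ring

/-- the descent -/
theorem descent (n : ℕ) (h : NoTwo X n) {m : ℕ} (z : Fin m → (Sing X n →₀ ℤ))
    (hz : ∀ i, z i ∈ cyc ℤ X n)
    (hind : ∀ g : Fin m → ZMod 2, ∑ i, g i • cm m2 n (z i) ∈ bou (ZMod 2) X n → g = 0)
    (A : Fin m → ℤ) (hA : ∑ i, A i • z i ∈ bou ℤ X n) : A = 0 := by
  have step : ∀ A : Fin m → ℤ, ∑ i, A i • z i ∈ bou ℤ X n →
      ∃ A' : Fin m → ℤ, (∀ i, A i = 2 * A' i) ∧ ∑ i, A' i • z i ∈ bou ℤ X n := by
    intro A hA
    have h1 : (fun i => ((A i : ℤ) : ZMod 2)) = 0 := by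
      apply hind
      obtain ⟨b, hb⟩ := hA
      refine ⟨cm m2 (n + 1) b, ?_⟩
      rw [← cm_bd, hb, map_sum]
      refine Finset.sum_congr rfl fun i _ => ?_
      rw [map_zsmul, Int.cast_smul_eq_zsmul]
    have h2 : ∀ i, ∃ y : ℤ, A i = 2 * y := by
      intro i
      exact (ZMod.intCast_zmod_eq_zero_iff_dvd (A i) 2).mp (congrFun h1 i)
    choose A' hA' using h2
    refine ⟨A', hA', ?_⟩
    apply h
    · exact Submodule.sum_mem _ fun i _ => Submodule.smul_mem _ _ (hz i)
    · rw [Finset.smul_sum]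
      have h3 : ∑ i, (2 : ℤ) • A' i • z i = ∑ i, A i • z i := by
        refine Finset.sum_congr rfl fun i _ => ?_
        rw [smul_smul, hA' i]
      rw [h3]
      exact hA
  have hdvd : ∀ (j : ℕ) (A : Fin m → ℤ), ∑ i, A i • z i ∈ bou ℤ X n → ∀ i, (2 : ℤ) ^ j ∣ A i := by
    intro j
    induction j with
    | zero => intro A _ i; simp
    | succ j ih =>
      intro A hA i
      obtain ⟨A', h1, h2⟩ := step A hA
      rw [h1 i, pow_succ, mul_comm]
      exact mul_dvd_mul_left 2 (ih A' h2 i)
  funext i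
  by_contra hne
  have hne' : A i ≠ 0 := hne
  have h1 := hdvd (A i).natAbs A hA i
  have h2 : (2 : ℤ) ^ (A i).natAbs ≤ |A i| := by
    apply Int.le_of_dvd (abs_pos.mpr hne')
    rwa [dvd_abs]
  have h3 : (A i).natAbs < 2 ^ (A i).natAbs := Nat.lt_two_pow_self
  have h4 : |A i| = ((A i).natAbs : ℤ) := Int.abs_eq_natAbs _
  rw [h4] at h2
  have h5 : (((A i).natAbs : ℕ) : ℤ) < (2 : ℤ) ^ (A i).natAbs := by exact_mod_cast h3
  omega

theorem descentR (n : ℕ) (h : NoTwo X n) {m : ℕ} (z : Fin m → (Sing X n →₀ ℤ))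
    (hz : ∀ i, z i ∈ cyc ℤ X n)
    (hind : ∀ g : Fin m → ZMod 2, ∑ i, g i • cm m2 n (z i) ∈ bou (ZMod 2) X n → g = 0)
    (a : Fin m → ℝ)
    (ha : ∑ i, a i • cm (Int.castRingHom ℝ).toAddMonoidHom n (z i) ∈ bou ℝ X n) : a = 0 := by
  funext i0
  change a i0 = 0
  rw [← Module.forall_dual_apply_eq_zero_iff ℚ (a i0)]
  intro lam
  obtain ⟨b, hb⟩ := ha
  let φ : ℝ →+ ℚ := lam.toAddMonoidHom
  have hφ : ∀ x, φ x = lam x := fun _ => rfl
  -- pass to rational coefficients
  have h1 : bd ℚ X n (cm φ (n + 1) b) =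
      ∑ i, lam (a i) • cm (Int.castRingHom ℚ).toAddMonoidHom n (z i) := by
    rw [← cm_bd, hb, map_sum]
    refine Finset.sum_congr rfl fun i _ => ?_
    apply Finsupp.ext
    intro σ
    rw [cm_apply, Finsupp.smul_apply, cm_apply, Finsupp.smul_apply, cm_apply, hφ]
    change lam (a i * ((z i σ : ℤ) : ℝ)) = lam (a i) * ((z i σ : ℤ) : ℚ)
    have h2 : a i * ((z i σ : ℤ) : ℝ) = ((z i σ : ℤ) : ℚ) • a i := by
      rw [Rat.smul_def, mul_comm]
      push_cast
      rfl
    rw [h2, map_smul, smul_eq_mul, mul_comm]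
  obtain ⟨N, hN, B', hB'⟩ := clear (n + 1) (cm φ (n + 1) b)
  obtain ⟨N', hN', A, hA⟩ := clear_fun (fun i => lam (a i))
  have h3 : (fun i => N * A i) = 0 := by
    apply descent n h z hz hind
    refine ⟨N' • B', ?_⟩
    have hinj : Function.Injective (cm (X := X) (Int.castRingHom ℚ).toAddMonoidHom n) := by
      intro x y hxy
      apply Finsupp.ext
      intro σ
      have h4 := DFunLike.congr_fun hxy σ
      rw [cm_apply, cm_apply] at h4
      exact Int.cast_injective (α := ℚ) h4
    apply hinj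
    rw [cm_bd, map_zsmul, map_zsmul, hB', map_smul, h1, map_sum, Finset.smul_sum,
      Finset.smul_sum]
    refine Finset.sum_congr rfl fun i _ => ?_
    rw [map_zsmul]
    apply Finsupp.ext
    intro σ
    simp only [Finsupp.smul_apply, smul_eq_mul, zsmul_eq_mul]
    have h5 := hA i
    push_cast
    rw [h5]
    ring
  have h6 := congrFun h3 i0
  have h7 : A i0 = 0 := by
    rcases mul_eq_zero.mp h6 with h | h
    · exact absurd h hN
    · exact h
  have h8 := hA i0
  rw [h7] at h8
  have h9 : (N' : ℚ) ≠ 0 := by exact_mod_cast hN'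
  have h10 : (N' : ℚ) * lam (a i0) = 0 := by
    rw [← h8]
    simp
  exact (mul_eq_zero.mp h10).resolve_left h9

/-- mod 2 Betti numbers are at most real Betti numbers -/
theorem finrank_le (n : ℕ) (h : NoTwo X n) (h' : ∀ m, m + 1 = n → NoTwo X m)
    (h2 : Module.Finite (ZMod 2) (Hm (ZMod 2) X n)) (hR : Module.Finite ℝ (Hm ℝ X n)) :
    finrank (ZMod 2) (Hm (ZMod 2) X n) ≤ finrank ℝ (Hm ℝ X n) := by
  classical
  have : Fact (Nat.Prime 2) := ⟨Nat.prime_two⟩
  set m := finrank (ZMod 2) (Hm (ZMod 2) X n) with hm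
  let b := Module.finBasis (ZMod 2) (Hm (ZMod 2) X n)
  have h3 : ∀ i : Fin m, ∃ z ∈ cyc ℤ X n, ∃ hc : cm m2 n z ∈ cyc (ZMod 2) X n,
      (Submodule.Quotient.mk ⟨cm m2 n z, hc⟩ : Hm (ZMod 2) X n) = b i := by
    intro i
    obtain ⟨c, hc⟩ := Submodule.mkQ_surjective _ (b i)
    obtain ⟨z, hz, hzc⟩ := lift_cyc n h' c.1 c.2
    refine ⟨z, hz, by rw [hzc]; exact c.2, ?_⟩
    rw [← hc]
    congr 1
    exact Subtype.ext hzc
  choose z hz hc hzb using h3
  have hind : ∀ g : Fin m → ZMod 2, ∑ i, g i • cm m2 n (z i) ∈ bou (ZMod 2) X n → g = 0 := by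
    intro g hg
    have h4 := b.linearIndependent
    rw [Fintype.linearIndependent_iff] at h4
    funext i
    apply h4 g
    have h5 : ∑ i, g i • b i = (Submodule.Quotient.mk
        (∑ i, g i • (⟨cm m2 n (z i), hc i⟩ : cyc (ZMod 2) X n)) : Hm (ZMod 2) X n) := by
      change _ = Submodule.mkQ _ _
      rw [map_sum]
      refine Finset.sum_congr rfl fun i _ => ?_
      rw [map_smul]
      congr 1
      exact (hzb i).symm
    rw [h5]
    apply (Submodule.Quotient.mk_eq_zero _).mpr
    change (∑ i, g i • (⟨cm m2 n (z i), hc i⟩ : cyc (ZMod 2) X n)).1 ∈ bou (ZMod 2) X n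
    have h6 : (∑ i, g i • (⟨cm m2 n (z i), hc i⟩ : cyc (ZMod 2) X n)).1 =
        ∑ i, g i • cm m2 n (z i) := by
      change (cyc (ZMod 2) X n).subtype _ = _
      rw [map_sum]
      rfl
    rw [h6]
    exact hg
  have hcR : ∀ i, cm (Int.castRingHom ℝ).toAddMonoidHom n (z i) ∈ cyc ℝ X n := by
    intro i
    have hzi := hz i
    generalize z i = w at hzi
    cases n with
    | zero => trivial
    | succ n =>
      change bd ℝ X n _ = 0
      rw [← cm_bd]
      have : bd ℤ X n w = 0 := hzi
      rw [this, map_zero]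
  let v : Fin m → Hm ℝ X n := fun i =>
    Submodule.Quotient.mk ⟨cm (Int.castRingHom ℝ).toAddMonoidHom n (z i), hcR i⟩
  have hv : LinearIndependent ℝ v := by
    rw [Fintype.linearIndependent_iff]
    intro a ha i
    have h7 : a = 0 := by
      apply descentR n h z hz hind
      have h8 : ∑ i, a i • v i = (Submodule.Quotient.mk
          (∑ i, a i • (⟨cm (Int.castRingHom ℝ).toAddMonoidHom n (z i), hcR i⟩ : cyc ℝ X n)) :
          Hm ℝ X n) := by
        change _ = Submodule.mkQ _ _
        rw [map_sum]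
        refine Finset.sum_congr rfl fun i _ => ?_
        rw [map_smul]
        rfl
      rw [h8] at ha
      have h9 := (Submodule.Quotient.mk_eq_zero _).mp ha
      have h10 : (∑ i, a i • (⟨cm (Int.castRingHom ℝ).toAddMonoidHom n (z i), hcR i⟩ :
          cyc ℝ X n)).1 ∈ bou ℝ X n := h9
      have h11 : (∑ i, a i • (⟨cm (Int.castRingHom ℝ).toAddMonoidHom n (z i), hcR i⟩ :
          cyc ℝ X n)).1 = ∑ i, a i • cm (Int.castRingHom ℝ).toAddMonoidHom n (z i) := by
        change (cyc ℝ X n).subtype _ = _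
        rw [map_sum]
        rfl
      rw [h11] at h10
      exact h10
    rw [h7]
    rfl
  have := hv.fintype_card_le_finrank
  rwa [Fintype.card_fin] at this

end Lift

end

end Pool.Agent.TH592.Nag
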