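import Pool.Agent.Helper381.Loc
import Pool.Agent.TH592.Nag.Energy2

/-! Two minimal geodesics from the centre of a chart: the difference of the midpoints is half of
the difference of the ends, up to a relative error. -/

namespace Pool.Agent.TH592.Nag

universe u v w

open Metric Set
open Pool.Agent.Helper381

variable {M : Type u} {E : Type v} [MetricSpace M] [NormedAddCommGroup E] [NormedSpace ℝ E]
  (c : Loc M E)

theorem scc_local2
    (hmid : ∀ x y : M, ∃ m : M, dist x m = dist x y / 2 ∧ dist m y = dist x y / 2)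
    {ρ ε : ℝ} (hρ0 : 0 < ρ) (hρ1 : ρ ≤ c.r₁) (hρτ : ρ < c.τ)
    (hsmall : c.C * ρ ^ 2 + c.C * ρ / 2 + c.C * ρ / 4 ≤ c.lam * ε) (hε0 : 0 ≤ ε) {z u v : E}
    (hz : z ∈ ball c.x₀ (ρ / (2 + 2 * c.L ^ 2))) (hu : u ∈ ball c.x₀ (ρ / (2 + 2 * c.L ^ 2)))
    (hv : v ∈ ball c.x₀ (ρ / (2 + 2 * c.L ^ 2))) :
    (dist (c.ψ z) (c.ψ u) ^ 2 + dist (c.ψ z) (c.ψ v) ^ 2) / 2 -
        (1 / 4 + ε) * c.G c.x₀ (u - v) (u - v) ≤
      dist (c.ψ z) (c.ψ ((1 / 2 : ℝ) • (u + v))) ^ 2 := by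
  have hL := c.one_le_L
  set ρ₀ := ρ / (2 + 2 * c.L ^ 2) with hρ₀
  have hρρ : ρ = ρ₀ * (2 + 2 * c.L ^ 2) := by rw [hρ₀]; field_simp
  have hρ₀pos : 0 < ρ₀ := by positivity
  have hA : 2 * c.L ^ 2 * ρ₀ ≤ ρ := by rw [hρρ]; nlinarith
  have hB : (1 + 2 * c.L ^ 2) * ρ₀ ≤ ρ := by rw [hρρ]; nlinarith
  have hr1r : ρ ≤ c.r := hρ1.trans (by linarith [c.r₁_lt, c.r₁pos])
  set e : E := (1 / 2 : ℝ) • (u - v) with he
  have hen : ‖e‖ ≤ ρ₀ := by
    have h1 := dist_triangle_right u v c.x₀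
    rw [mem_ball] at hu hv
    rw [he, norm_smul, ← dist_eq_norm]
    have : ‖(1 / 2 : ℝ)‖ = 1 / 2 := by norm_num
    rw [this]
    linarith
  have hm := Loc.half_mem_ball hu hv
  rw [tsub_le_iff_right]
  have hQe : c.G c.x₀ (u - v) (u - v) = 4 * c.G c.x₀ e e := by
    rw [he]
    simp only [map_smul, LinearMap.smul_apply, smul_eq_mul]
    ring
  rw [hQe]
  apply Loc.le_of_forall_pow (K := 2 * (c.C₃ * ρ ^ 3))
  intro k
  obtain ⟨m, m0, m1, hmb, hmd, hmdist⟩ := c.chain_in_chart hmid hρ1 hρτ hz hm k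
  set n := 2 ^ k with hn
  have hnpos : 0 < n := by positivity
  have hn' : (0 : ℝ) < n := by exact_mod_cast hnpos
  have hfrac : ∀ i ≤ n, ‖((i : ℝ) / n) • e‖ ≤ ρ₀ := by
    intro i hi
    rw [norm_smul, Real.norm_of_nonneg (by positivity)]
    have h1 : (i : ℝ) / n ≤ 1 := by
      rw [div_le_one hn']; exact_mod_cast hi
    have := norm_nonneg e
    nlinarith
  have hmr : ∀ i ≤ n, m i ∈ ball c.x₀ ρ := fun i hi => ball_subset_ball hB (hmb i hi)
  have hap : ∀ i ≤ n, m i + ((i : ℝ) / n) • e ∈ ball c.x₀ ρ := by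
    intro i hi
    have h1 := hmb i hi
    rw [mem_ball, dist_eq_norm] at h1 ⊢
    have h2 : m i + ((i : ℝ) / n) • e - c.x₀ = (m i - c.x₀) + ((i : ℝ) / n) • e := by abel
    rw [h2]
    have h3 := norm_add_le (m i - c.x₀) (((i : ℝ) / n) • e)
    have h4 := hfrac i hi
    rw [hρρ]; nlinarith
  have ham : ∀ i ≤ n, m i - ((i : ℝ) / n) • e ∈ ball c.x₀ ρ := by
    intro i hi
    have h1 := hmb i hi
    rw [mem_ball, dist_eq_norm] at h1 ⊢
    have h2 : m i - ((i : ℝ) / n) • e - c.x₀ = (m i - c.x₀) - ((i : ℝ) / n) • e := by abel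
    rw [h2]
    have h3 := norm_sub_le (m i - c.x₀) (((i : ℝ) / n) • e)
    have h4 := hfrac i hi
    rw [hρρ]; nlinarith
  have hstep : ∀ i, (((i + 1 : ℕ) : ℝ) / n) • e - ((i : ℝ) / n) • e = ((1 : ℝ) / n) • e := by
    intro i
    push_cast
    have : (((i : ℝ) + 1) / n) = (i : ℝ) / n + 1 / n := by ring
    rw [this]
    module
  have hstepn : ‖((1 : ℝ) / n) • e‖ ≤ ρ₀ / n := by
    rw [norm_smul, Real.norm_of_nonneg (by positivity)]
    have : ρ₀ / n = 1 / n * ρ₀ := by ring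
    rw [this]
    gcongr
  have hmd' : ∀ i < n, ‖m (i + 1) - m i‖ ≤ ρ / n := fun i hi => (hmd i hi).trans (by gcongr)
  have hpd : ∀ i < n, ‖(m (i + 1) + (((i + 1 : ℕ) : ℝ) / n) • e) - (m i + ((i : ℝ) / n) • e)‖ ≤
      ρ / n := by
    intro i hi
    have : (m (i + 1) + (((i + 1 : ℕ) : ℝ) / n) • e) - (m i + ((i : ℝ) / n) • e) =
      (m (i + 1) - m i) + ((((i + 1 : ℕ) : ℝ) / n) • e - ((i : ℝ) / n) • e) := by abel
    rw [this, hstep]
    refine (norm_add_le _ _).trans ?_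
    have h1 := hmd i hi
    have h2 : 2 * c.L ^ 2 * ρ₀ / n + ρ₀ / n ≤ ρ / n := by
      rw [← add_div]
      gcongr
      rw [hρρ]; nlinarith
    linarith
  have hqd : ∀ i < n, ‖(m (i + 1) - (((i + 1 : ℕ) : ℝ) / n) • e) - (m i - ((i : ℝ) / n) • e)‖ ≤
      ρ / n := by
    intro i hi
    have : (m (i + 1) - (((i + 1 : ℕ) : ℝ) / n) • e) - (m i - ((i : ℝ) / n) • e) =
      (m (i + 1) - m i) - ((((i + 1 : ℕ) : ℝ) / n) • e - ((i : ℝ) / n) • e) := by abel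
    rw [this, hstep]
    refine (norm_sub_le _ _).trans ?_
    have h1 := hmd i hi
    have h2 : 2 * c.L ^ 2 * ρ₀ / n + ρ₀ / n ≤ ρ / n := by
      rw [← add_div]
      gcongr
      rw [hρρ]; nlinarith
    linarith
  have e1 := energy_scc2 c.toMetCoef hr1r hρ0.le hsmall hε0 hnpos m e hap ham hmd'
  have e2 := c.energy_le hnpos m (fun i hi => ball_subset_ball hρ1 (hmr i hi)) hmd' hmdist
  have e3 := c.dist_sq_le_energy (B := ρ) hnpos (fun i => m i + ((i : ℝ) / n) • e)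
    (fun i hi => ball_subset_ball hρ1 (hap i hi)) hpd
  have e4 := c.dist_sq_le_energy (B := ρ) hnpos (fun i => m i - ((i : ℝ) / n) • e)
    (fun i hi => ball_subset_ball hρ1 (ham i hi)) hqd
  have hnn : (n : ℝ) / n = 1 := div_self hn'.ne'
  simp only [m0, m1, hnn, Nat.cast_zero, zero_div, zero_smul, add_zero, sub_zero, one_smul] at e3 e4
  have f1 : (1 / 2 : ℝ) • (u + v) + e = u := by rw [he]; module
  have f2 : (1 / 2 : ℝ) • (u + v) - e = v := by rw [he]; module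
  rw [f1] at e3
  rw [f2] at e4
  have e6 : 2 * (c.C₃ * ρ ^ 3) / (n : ℝ) = 2 * (c.C₃ * ρ ^ 3 / n) := by ring
  have e7 : (1 / 4 + ε) * (4 * c.G c.x₀ e e) = (1 + 4 * ε) * c.G c.x₀ e e := by ring
  rw [e6, e7]
  linarith

theorem G_nonneg (v : E) : 0 ≤ c.G c.x₀ v v := c.nonneg (mem_ball_self c.rpos) v

theorem G_neg (v : E) : c.G c.x₀ (-v) (-v) = c.G c.x₀ v v := by simp

/-- two geodesics with the same origin `z` near the centre -/
theorem two_var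
    (hmid : ∀ x y : M, ∃ m : M, dist x m = dist x y / 2 ∧ dist m y = dist x y / 2)
    {R : ℝ} (huniq : ∀ x y m m' : M, dist x y < R → dist x m = dist x y / 2 →
      dist m y = dist x y / 2 → dist x m' = dist x y / 2 → dist m' y = dist x y / 2 → m = m')
    {ρ ε : ℝ} (hρ0 : 0 < ρ) (hρ1 : ρ ≤ c.r₁) (hρτ : ρ < c.τ) 
    (hsmall : c.C * ρ ^ 2 + c.C * ρ / 2 + c.C * ρ / 4 ≤ c.lam * ε) (hε0 : 0 ≤ ε)
    (hε : ε ≤ 1 / 8) {z u u' : E}
    (hz : z ∈ ball c.x₀ (ρ / (2 + 2 * c.L ^ 2))) (hu : u ∈ ball c.x₀ (ρ / (2 + 2 * c.L ^ 2)))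
    (hu' : u' ∈ ball c.x₀ (ρ / (2 + 2 * c.L ^ 2)))
    (hR : dist (c.ψ z) (c.ψ u) < R) (hR' : dist (c.ψ z) (c.ψ u') < R)
    {p p' : M} (hp1 : dist (c.ψ z) p = dist (c.ψ z) (c.ψ u) / 2)
    (hp2 : dist p (c.ψ u) = dist (c.ψ z) (c.ψ u) / 2)
    (hp1' : dist (c.ψ z) p' = dist (c.ψ z) (c.ψ u') / 2)
    (hp2' : dist p' (c.ψ u') = dist (c.ψ z) (c.ψ u') / 2) :
    c.G c.x₀ ((c.φ p' - c.φ p) - (1 / 2 : ℝ) • (u' - u))
      ((c.φ p' - c.φ p) - (1 / 2 : ℝ) • (u' - u)) ≤ 4 * ε * c.G c.x₀ (u' - u) (u' - u) := by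
  have hL := c.one_le_L
  have hscc := scc_local2 c hmid hρ0 hρ1 hρτ hsmall hε0 hz hu hu'
  set ρ₀ := ρ / (2 + 2 * c.L ^ 2) with hρ₀
  have hρρ : ρ = ρ₀ * (2 + 2 * c.L ^ 2) := by rw [hρ₀]; field_simp
  have hρ₀pos : 0 < ρ₀ := by positivity
  have hA : 2 * c.L ^ 2 * ρ₀ ≤ ρ := by rw [hρρ]; nlinarith
  have hB : (1 + 2 * c.L ^ 2) * ρ₀ ≤ ρ := by rw [hρρ]; nlinarith
  have hr1r : ρ ≤ c.r := hρ1.trans (by linarith [c.r₁_lt, c.r₁pos])
  -- the middle point of a minimal chain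
  have hmiddle : ∀ (k : ℕ) (w : E) (q : M) (a : ℕ → E), a 0 = z → a (2 * 2 ^ k) = w →
      (∀ i ≤ 2 * 2 ^ k, a i ∈ ball c.x₀ c.r) →
      (∀ i < 2 * 2 ^ k, dist (c.ψ (a i)) (c.ψ (a (i + 1))) ≤
        dist (c.ψ z) (c.ψ w) / (2 * 2 ^ k : ℕ)) → dist (c.ψ z) (c.ψ w) < R →
      dist (c.ψ z) q = dist (c.ψ z) (c.ψ w) / 2 → dist q (c.ψ w) = dist (c.ψ z) (c.ψ w) / 2 →
      a (2 ^ k) = c.φ q := by
    intro k w q a h0 h1 hb hd hR hq1 hq2
    have hk : (0 : ℝ) < 2 ^ k := by positivity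
    have hcast : ((2 * 2 ^ k : ℕ) : ℝ) = 2 * 2 ^ k := by push_cast; ring
    rw [hcast] at hd
    have d1 : dist (c.ψ z) (c.ψ (a (2 ^ k))) ≤ dist (c.ψ z) (c.ψ w) / 2 := by
      have e1 := dist_le_range_sum_dist (fun i => c.ψ (a i)) (2 ^ k)
      simp only [h0] at e1
      refine e1.trans ?_
      refine (Finset.sum_le_card_nsmul _ _ (dist (c.ψ z) (c.ψ w) / (2 * 2 ^ k)) ?_).trans ?_
      · intro i hi
        rw [Finset.mem_range] at hi
        exact hd i (by omega)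
      · rw [Finset.card_range, nsmul_eq_mul]
        push_cast
        apply le_of_eq
        field_simp
    have d2 : dist (c.ψ (a (2 ^ k))) (c.ψ w) ≤ dist (c.ψ z) (c.ψ w) / 2 := by
      have e1 := dist_le_Ico_sum_dist (fun i => c.ψ (a i)) (m := 2 ^ k) (n := 2 * 2 ^ k) (by omega)
      simp only [h1] at e1
      refine e1.trans ?_
      refine (Finset.sum_le_card_nsmul _ _ (dist (c.ψ z) (c.ψ w) / (2 * 2 ^ k)) ?_).trans ?_
      · intro i hi
        rw [Finset.mem_Ico] at hi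
        exact hd i hi.2
      · rw [Nat.card_Ico, nsmul_eq_mul]
        have : 2 * 2 ^ k - 2 ^ k = 2 ^ k := by omega
        rw [this]
        push_cast
        apply le_of_eq
        field_simp
    have d3 := dist_triangle (c.ψ z) (c.ψ (a (2 ^ k))) (c.ψ w)
    have hq : c.ψ (a (2 ^ k)) = q := by
      apply huniq (c.ψ z) (c.ψ w) _ _ hR _ _ hq1 hq2
      · linarith
      · linarith
    rw [← hq, c.φψ _ (hb (2 ^ k) (by omega))]
  set Du := dist (c.ψ z) (c.ψ u) with hDu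
  set Du' := dist (c.ψ z) (c.ψ u') with hDu'
  set Dm := dist (c.ψ z) (c.ψ ((1 / 2 : ℝ) • (u + u'))) with hDm
  set w : E := (c.φ p' - c.φ p) - (1 / 2 : ℝ) • (u' - u) with hw
  have key : Dm ^ 2 + (1 / 4 - ε) * (c.G c.x₀ (u' - u) (u' - u) + 4 * c.G c.x₀ w w) ≤
      (Du ^ 2 + Du' ^ 2) / 2 := by
    apply Loc.le_of_forall_pow (K := 2 * (c.C₃ * ρ ^ 3))
    intro k
    obtain ⟨a, a0, a1, hab, had, hadist⟩ := c.chain_in_chart hmid hρ1 hρτ hz hu (k + 1)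
    obtain ⟨b, b0, b1, hbb, hbd, hbdist⟩ := c.chain_in_chart hmid hρ1 hρτ hz hu' (k + 1)
    have hpow : 2 ^ (k + 1) = 2 * 2 ^ k := by ring
    rw [hpow] at a1 hab had hadist b1 hbb hbd hbdist
    set n := 2 * 2 ^ k with hn
    have hnpos : 0 < n := by positivity
    have hn' : (0 : ℝ) < n := by exact_mod_cast hnpos
    have hab' : ∀ i ≤ n, a i ∈ ball c.x₀ ρ := fun i hi => ball_subset_ball hB (hab i hi)
    have hbb' : ∀ i ≤ n, b i ∈ ball c.x₀ ρ := fun i hi => ball_subset_ball hB (hbb i hi)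
    have hab1 : ∀ i ≤ n, a i ∈ ball c.x₀ c.r₁ := fun i hi => ball_subset_ball hρ1 (hab' i hi)
    have hbb1 : ∀ i ≤ n, b i ∈ ball c.x₀ c.r₁ := fun i hi => ball_subset_ball hρ1 (hbb' i hi)
    have had' : ∀ i < n, ‖a (i + 1) - a i‖ ≤ ρ / n := fun i hi => (had i hi).trans (by gcongr)
    have hbd' : ∀ i < n, ‖b (i + 1) - b i‖ ≤ ρ / n := fun i hi => (hbd i hi).trans (by gcongr)
    have am : a (2 ^ k) = c.φ p :=
      hmiddle k u p a a0 a1 (fun i hi => c.ball_sub (hab1 i hi)) hadist hR hp1 hp2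
    have bm : b (2 ^ k) = c.φ p' :=
      hmiddle k u' p' b b0 b1 (fun i hi => c.ball_sub (hbb1 i hi)) hbdist hR' hp1' hp2'
    have e1 := energy_sc2 c.toMetCoef hr1r hρ0.le hsmall (by linarith) (m := 2 ^ k)
      (by positivity) a b (by rw [a0, b0]) hab' hbb' had' hbd'
    have e2 := c.energy_le hnpos a hab1 had' hadist
    have e3 := c.energy_le hnpos b hbb1 hbd' hbdist
    have e4 := c.dist_sq_le_energy (B := ρ) hnpos (fun i => (1 / 2 : ℝ) • (a i + b i))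
      (fun i hi => Loc.half_mem_ball (hab1 i hi) (hbb1 i hi)) (by
        intro i hi
        have : (1 / 2 : ℝ) • (a (i + 1) + b (i + 1)) - (1 / 2 : ℝ) • (a i + b i) =
          (1 / 2 : ℝ) • ((a (i + 1) - a i) + (b (i + 1) - b i)) := by module
        rw [this, norm_smul]
        have h1 := norm_add_le (a (i + 1) - a i) (b (i + 1) - b i)
        have h2 := had' i hi
        have h3 := hbd' i hi
        have : ‖(1 / 2 : ℝ)‖ = 1 / 2 := by norm_num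
        rw [this]
        linarith)
    rw [← hn] at e1
    simp only [a0, b0, a1, b1, am, bm] at e4 e1
    have e5 : (1 / 2 : ℝ) • (z + z) = z := by module
    rw [e5] at e4
    have e6 : 2 * (c.C₃ * ρ ^ 3) / ((2 ^ k : ℕ) : ℝ) = 4 * (c.C₃ * ρ ^ 3 / n) := by
      have : ((n : ℕ) : ℝ) = 2 * ((2 ^ k : ℕ) : ℝ) := by rw [hn]; push_cast; ring
      rw [this]
      have h2 : ((2 ^ k : ℕ) : ℝ) ≠ 0 := by positivity
      field_simp
      ring
    have e7 : 0 ≤ c.C₃ * ρ ^ 3 / n := by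
      have := c.C₃pos
      positivity
    rw [e6]
    linarith
  have hG1 := G_nonneg c (u' - u)
  have hG2 := G_nonneg c w
  have hG3 : c.G c.x₀ (u - u') (u - u') = c.G c.x₀ (u' - u) (u' - u) := by
    rw [← G_neg c (u' - u), neg_sub]
  rw [hG3] at hscc
  nlinarith

end Pool.Agent.TH592.Nag
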